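import Pool.Agent.ETT.Stmts

/-!
Module AIX: open subgroups of index 2 of admissible subgroups are admissible.
-/

set_option autoImplicit false

namespace Pool.Agent.ETT

namespace AIX_

/-- the normal core of an open subgroup of finite index is open -/
theorem core_open {G : Type} [Group G] [TopologicalSpace G] [IsTopologicalGroup G]
    (W : Subgroup G) (hW : IsOpen (W : Set G)) (hf : W.FiniteIndex) :
    IsOpen (W.normalCore : Set G) := by
  have hcl : IsClosed (W : Set G) := Subgroup.isClosed_of_isOpen W hW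
  have hc : IsClosed (W.normalCore : Set G) := by
    have h : (W.normalCore : Set G) = ⋂ b : G, (fun a : G => b * a * b⁻¹) ⁻¹' (W : Set G) := by
      ext a
      simp only [Set.mem_iInter, Set.mem_preimage, SetLike.mem_coe]
      rfl
    rw [h]
    refine isClosed_iInter fun b => hcl.preimage ?_
    fun_prop
  have := hf
  exact Subgroup.isOpen_of_isClosed_of_finiteIndex _ hc

end AIX_

open AIX_

theorem aix_proof : Stmt_AIX := by
  intro G _ _ _ U W hU hWU hWo hW2
  obtain ⟨N, hNU, hNn, hNo, k, hk⟩ := hU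
  have _i1 := hNn
  have hsq : ∀ n ∈ N, n ^ 2 ∈ W ⊓ N := by
    intro n hn
    refine ⟨?_, N.pow_mem hn 2⟩
    have h := Subgroup.sq_mem_of_index_two (H := W.subgroupOf U) hW2 ⟨n, hNU hn⟩
    rw [Subgroup.mem_subgroupOf] at h
    simpa using h
  have hopen : IsOpen ((W ⊓ N : Subgroup G) : Set G) := by
    rw [Subgroup.coe_inf]
    exact hWo.inter hNo
  have hNi : N.index ≠ 0 := by rw [hk]; positivity
  have hrel : (W ⊓ N).relIndex N ≠ 0 := by
    rw [Subgroup.inf_relIndex_right]
    have h1 : W.relIndex U ≠ 0 := by rw [hW2]; norm_num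
    exact fun h0 => h1 (Subgroup.relIndex_eq_zero_of_le_right hNU h0)
  have hidx : (W ⊓ N).index ≠ 0 := by
    rw [← Subgroup.relIndex_mul_index (inf_le_right : W ⊓ N ≤ N)]
    exact Nat.mul_ne_zero hrel hNi
  have hfi : (W ⊓ N).FiniteIndex := ⟨hidx⟩
  have hMo := core_open (W ⊓ N) hopen hfi
  have hML : (W ⊓ N).normalCore ≤ W ⊓ N := Subgroup.normalCore_le _
  have hMN : (W ⊓ N).normalCore ≤ N := hML.trans inf_le_right
  refine ⟨(W ⊓ N).normalCore, hML.trans inf_le_left, Subgroup.normalCore_normal _, hMo, ?_⟩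
  have _i2 := hfi
  have hMfi : ((W ⊓ N).normalCore).index ≠ 0 := Subgroup.FiniteIndex.index_ne_zero
  set M := (W ⊓ N).normalCore with hM
  have hMnorm : M.Normal := Subgroup.normalCore_normal _
  have hsqM : ∀ n ∈ N, n ^ 2 ∈ M := by
    intro n hn
    have : ∀ b : G, b * n ^ 2 * b⁻¹ ∈ W ⊓ N := by
      intro b
      rw [← conj_pow]
      exact hsq _ (hNn.conj_mem n hn b)
    exact this
  have hfin : Finite (N ⧸ M.subgroupOf N) := by
    have h1 : (M.subgroupOf N).index ≠ 0 := by
      intro h0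
      apply hMfi
      rw [← Subgroup.relIndex_mul_index hMN]
      have : M.relIndex N = 0 := h0
      rw [this, zero_mul]
    have hfi2 : (M.subgroupOf N).FiniteIndex := ⟨h1⟩
    exact Subgroup.finite_quotient_of_finiteIndex
  have : Fact (Nat.Prime 2) := ⟨Nat.prime_two⟩
  have hp : IsPGroup 2 (N ⧸ M.subgroupOf N) := by
    intro x
    refine ⟨1, ?_⟩
    obtain ⟨n, rfl⟩ := QuotientGroup.mk_surjective x
    rw [pow_one, ← QuotientGroup.mk_pow, QuotientGroup.eq_one_iff, Subgroup.mem_subgroupOf]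
    simpa using hsqM n n.2
  obtain ⟨l, hl⟩ := IsPGroup.iff_card.1 hp
  refine ⟨l + k, ?_⟩
  rw [← Subgroup.relIndex_mul_index hMN, hk, pow_add]
  congr 1

end Pool.Agent.ETT
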