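import Pool.Agent.ETT.Stmts
import Pool.Agent.ETB.Bound

/-! Bounded ranks imply bounded dimension. -/

set_option autoImplicit false

namespace Pool.Agent.ETT

theorem brk_proof : Stmt_BRK := by
  intro V B _ _ _ _ _ _ q rr hs hsp hq
  have := ETB.dim_bound q hs (le_of_eq hsp.symm) rr hq
  calc Module.finrank (ZMod 2) B ≤ 2 * rr * rr + 2 * rr := this
    _ = 2 * rr ^ 2 + 2 * rr := by ring

end Pool.Agent.ETT
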