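import Pool.Agent.ETT.Stmts

/-!
# ETT, module CYC: the 2-adic cyclotomic character
-/

set_option autoImplicit false

namespace Pool.Agent.ETT

open Module

namespace CYC_

variable {F Om : Type} [Field F] [Field Om] [Algebra F Om]

/-- primitive roots of unity of 2-power order -/
lemma exists_prim (h2 : (2 : Om) ≠ 0) (hsq : ∀ a : Om, ∃ b : Om, b ^ 2 = a) :
    ∀ j : ℕ, ∃ z : Om, IsPrimitiveRoot z (2 ^ j) := by
  have key : ∀ j : ℕ, ∃ z : Om, IsPrimitiveRoot z (2 ^ (j + 1)) := by
    intro j
    induction j with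
    | zero =>
      refine ⟨-1, ?_⟩
      have h1 : orderOf (-1 : Om) = 2 ^ (0 + 1) := by
        apply orderOf_eq_prime_pow
        · intro h
          rw [pow_zero, pow_one] at h
          apply h2
          have h3 : (1 : Om) + 1 = 0 := by
            nth_rewrite 1 [← h]
            ring
          rw [← h3]
          norm_num
        · norm_num
      rw [← h1]
      exact IsPrimitiveRoot.orderOf _
    | succ j ih =>
      obtain ⟨z, hz⟩ := ih
      obtain ⟨b, hb⟩ := hsq z
      refine ⟨b, ?_⟩
      have h1 : orderOf b = 2 ^ (j + 1 + 1) := by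
        apply orderOf_eq_prime_pow
        · intro h
          have h3 : z ^ (2 ^ j) = 1 := by
            rw [← hb, ← pow_mul]
            rw [← h]
            congr 1
            ring
          have h4 := hz.dvd_of_pow_eq_one _ h3
          have h5 := (Nat.pow_dvd_pow_iff_le_right (Nat.lt_succ_self 1)).mp h4
          omega
        · have h3 := hz.pow_eq_one
          rw [← hb, ← pow_mul] at h3
          rw [← h3]
          congr 1
          ring
      rw [← h1]
      exact IsPrimitiveRoot.orderOf _
  intro j
  cases j with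
  | zero => exact ⟨1, by simp⟩
  | succ j => exact key j

lemma val_toZModPow (x : ℤ_[2]) (n : ℕ) :
    (PadicInt.toZModPow n x).val = PadicInt.appr x n := by
  have h : PadicInt.toZModPow n x = ((PadicInt.appr x n : ℕ) : ZMod (2 ^ n)) := rfl
  rw [h, ZMod.val_natCast_of_lt (PadicInt.appr_lt x n)]

end CYC_

open CYC_ in
theorem cyc_proof (_hGFX : Stmt_GFX) : Stmt_CYC := by
  intro F Om _ _ _ hS
  have h2 : (2 : Om) ≠ 0 := by
    have h := hS.two
    intro h0
    apply h
    apply (algebraMap F Om).injective
    rw [map_ofNat, map_zero, h0]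
  have H := exists_prim h2 hS.sq
  have inst : ∀ i : ℕ, HasEnoughRootsOfUnity Om (2 ^ i) :=
    fun i => ⟨H i, rootsOfUnity.isCyclic _ _⟩
  let r : (Om ≃ₐ[F] Om) →* (Om ≃+* Om) := MulSemiringAction.toRingAut (Om ≃ₐ[F] Om) Om
  have hr : ∀ (g : Om ≃ₐ[F] Om) (x : Om), r g x = g x := fun g x => rfl
  have hspec : IsCyc F Om ((cyclotomicCharacter Om 2).comp r) := by
    intro g j z hz
    have h := cyclotomicCharacter.spec 2 (r g) z hz
    rw [hr, val_toZModPow] at h
    exact h
  have hfix : ∀ (g : Om ≃ₐ[F] Om) (j : ℕ) (z : F), IsPrimitiveRoot z (2 ^ j) →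
      PadicInt.toZModPow j (((cyclotomicCharacter Om 2).comp r g : ℤ_[2]ˣ) : ℤ_[2]) = 1 := by
    intro g j z hz
    have hz' : IsPrimitiveRoot (algebraMap F Om z) (2 ^ j) :=
      hz.map_of_injective (algebraMap F Om).injective
    have h1 := hspec g j (algebraMap F Om z) hz'.pow_eq_one
    rw [AlgEquiv.commutes] at h1
    rw [← val_toZModPow] at h1
    rcases Nat.eq_zero_or_pos j with hj | hj
    · subst hj
      have : Subsingleton (ZMod (2 ^ 0)) := by
        rw [pow_zero]
        infer_instance
      exact Subsingleton.elim _ _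
    · apply ZMod.val_injective
      apply hz'.pow_inj (ZMod.val_lt _) (ZMod.val_lt _)
      rw [← h1]
      have h3 : 1 < 2 ^ j := Nat.one_lt_pow (by omega) (by omega)
      have h4 : Fact (1 < 2 ^ j) := ⟨h3⟩
      rw [ZMod.val_one, pow_one]
  refine ⟨(cyclotomicCharacter Om 2).comp r, hspec, ?_, ?_⟩
  · intro g
    obtain ⟨i, hi⟩ := hS.im
    have hprim : IsPrimitiveRoot i (2 ^ 2) := by
      have h1 : orderOf i = 2 ^ (1 + 1) := by
        apply orderOf_eq_prime_pow
        · rw [pow_one, hi]
          intro h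
          apply hS.two
          have h3 : (1 : F) + 1 = 0 := by
            nth_rewrite 1 [← h]
            ring
          rw [← h3]
          norm_num
        · have h3 : i ^ (2 ^ (1 + 1)) = (i ^ 2) ^ 2 := by ring
          rw [h3, hi]
          norm_num
      have h2 := IsPrimitiveRoot.orderOf i
      rw [h1] at h2
      exact h2
    have h1 := hfix g 2 i hprim
    have h2 : PadicInt.toZModPow 2
        ((((cyclotomicCharacter Om 2).comp r g : ℤ_[2]ˣ) : ℤ_[2]) - 1) = 0 := by
      rw [map_sub, h1, map_one, sub_self]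
    rw [← RingHom.mem_ker, PadicInt.ker_toZModPow, Ideal.mem_span_singleton] at h2
    have h3 : (4 : ℤ_[2]) = ((2 : ℕ) : ℤ_[2]) ^ 2 := by norm_num
    rw [h3]
    exact h2
  · intro hmu
    apply MonoidHom.ext
    intro g
    apply Units.ext
    rw [MonoidHom.one_apply, Units.val_one]
    apply PadicInt.ext_of_toZModPow.mp
    intro j
    obtain ⟨z, hz⟩ := hmu j
    rw [hfix g j z hz, map_one]

end Pool.Agent.ETT
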