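import Pool.Agent.ETT.StmtsZ

/-!
# ETT: module DWN (descent of a total element along a quadratic extension)
-/

set_option autoImplicit false

namespace Pool.Agent.ETT

open Module Pool.Agent.EWG

theorem dwn_proof (hKU2 : Stmt_KU2) (hQDX : Stmt_QDX) (hGDU : Stmt_GDU)
    (hQEX : Pool.Agent.EWG.Stmt_QEX) (hDSC : Pool.Agent.DSC.Stmt_DSC) : Stmt_DWN := by
  intro F Om _ _ _ hS h3 U hU W hW hWU hidx hT
  obtain ⟨t, ht, ht2, hWt⟩ := hKU2 F Om hS U hU W hW hWU hidx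
  obtain ⟨alg, E, hE⟩ := hQDX F Om hS U hU W hW hWU hidx t ht ht2 hWt
  obtain ⟨gU, iU, fU, bU⟩ := hGDU F Om hS h3 U hU
  obtain ⟨gW, iW, fW, bW⟩ := hGDU F Om hS h3 W hW
  obtain ⟨D, hq, hq', hx⟩ := hQEX (KU F Om U) (KU F Om W) gU iU E
  obtain ⟨a, ha⟩ := hT
  have hfull : ∃ t, CommonSlot.Full D.q' t := by
    refine ⟨vm a, ?_⟩
    rintro ⟨c, hc⟩
    obtain ⟨b, hb⟩ := ha c hc
    exact ⟨vm b, Subtype.ext ((hq' a b).trans hb)⟩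
  obtain ⟨y, hy⟩ := hDSC _ _ _ _ D hfull
  obtain ⟨a', rfl⟩ := vm_surj y
  refine ⟨a', fun c hc => ?_⟩
  obtain ⟨v, hv⟩ := hy ⟨c, hc⟩
  obtain ⟨b, rfl⟩ := vm_surj v
  exact ⟨b, by rw [← hq a' b, hv]⟩

end Pool.Agent.ETT

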