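import Pool.Agent.ETT.Stmts

set_option autoImplicit false

namespace Pool.Agent.ETT

open Module

section EXP
variable {G : Type} [Group G] (S : Sys G)

/-- the explicit module -/
def EXP_R : Submodule (ZMod 2) (G → ZMod 2) where
  carrier := {φ | φ 1 = 0 ∧ ∃ N ∈ S.adm, ∀ g, ∀ u ∈ N, φ (g * u) = φ g}
  add_mem' := by
    rintro φ ψ ⟨h1, N, hN, hφ⟩ ⟨h2, M, hM, hψ⟩
    refine ⟨by simp [h1, h2], N ⊓ M, S.inf_mem N hN M hM, fun g u hu => ?_⟩
    rw [Pi.add_apply, Pi.add_apply, hφ g u hu.1, hψ g u hu.2]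
  zero_mem' := ⟨rfl, ⊤, S.top_mem, fun _ _ _ => rfl⟩
  smul_mem' := by
    rintro a φ ⟨h1, N, hN, hφ⟩
    refine ⟨by simp [h1], N, hN, fun g u hu => ?_⟩
    rw [Pi.smul_apply, Pi.smul_apply, hφ g u hu]

/-- the action -/
def EXP_rho : Representation (ZMod 2) G (EXP_R S) where
  toFun g :=
    { toFun := fun φ => ⟨fun h => φ.1 (g⁻¹ * h) - φ.1 g⁻¹, by
        obtain ⟨h1, N, hN, hφ⟩ := φ.2
        refine ⟨by simp, N, hN, fun h u hu => ?_⟩
        show φ.1 (g⁻¹ * (h * u)) - φ.1 g⁻¹ = φ.1 (g⁻¹ * h) - φ.1 g⁻¹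
        rw [← mul_assoc, hφ (g⁻¹ * h) u hu]⟩
      map_add' := fun φ ψ => by
        apply Subtype.ext
        funext h
        show (φ.1 + ψ.1) (g⁻¹ * h) - (φ.1 + ψ.1) g⁻¹ =
          (φ.1 (g⁻¹ * h) - φ.1 g⁻¹) + (ψ.1 (g⁻¹ * h) - ψ.1 g⁻¹)
        rw [Pi.add_apply, Pi.add_apply]
        ring
      map_smul' := fun a φ => by
        apply Subtype.ext
        funext h
        show (a • φ.1) (g⁻¹ * h) - (a • φ.1) g⁻¹ = a • (φ.1 (g⁻¹ * h) - φ.1 g⁻¹)
        rw [Pi.smul_apply, Pi.smul_apply, smul_sub] }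
  map_one' := by
    ext φ : 2
    funext h
    show φ.1 (1⁻¹ * h) - φ.1 1⁻¹ = φ.1 h
    rw [inv_one, one_mul, φ.2.1, sub_zero]
  map_mul' := by
    intro g g'
    ext φ : 2
    funext h
    show φ.1 ((g * g')⁻¹ * h) - φ.1 (g * g')⁻¹ =
      (φ.1 (g'⁻¹ * (g⁻¹ * h)) - φ.1 g'⁻¹) - (φ.1 (g'⁻¹ * g⁻¹) - φ.1 g'⁻¹)
    rw [mul_inv_rev, mul_assoc]
    ring

theorem EXP_rho_apply (g : G) (φ : EXP_R S) (h : G) :
    (EXP_rho S g φ).1 h = φ.1 (g⁻¹ * h) - φ.1 g⁻¹ := rfl

theorem EXP_mem_fix (U : Subgroup G) (φ : EXP_R S) :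
    φ ∈ fix (EXP_rho S) U ↔ ∀ u ∈ U, ∀ h, φ.1 (u * h) = φ.1 u + φ.1 h := by
  constructor
  · intro hφ u hu h
    have h1 := hφ u⁻¹ (U.inv_mem hu)
    have h2 := congrFun (congrArg Subtype.val h1) h
    rw [EXP_rho_apply, inv_inv] at h2
    rw [← h2]
    ring
  · intro hφ u hu
    apply Subtype.ext
    funext h
    rw [EXP_rho_apply, hφ u⁻¹ (U.inv_mem hu) h]
    ring

theorem EXP_smooth (φ : EXP_R S) : ∃ U ∈ S.adm, φ ∈ fix (EXP_rho S) U := by
  obtain ⟨h1, N, hN, hφ⟩ := φ.2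
  obtain ⟨M, hM, hMN, hMn, -⟩ := S.core N hN
  refine ⟨M, hM, ?_⟩
  rw [EXP_mem_fix]
  intro u hu h
  have h2 : φ.1 (u * h) = φ.1 h := by
    have h3 : u * h = h * (h⁻¹ * u * h) := by group
    have h4 : h⁻¹ * u * h ∈ M := by
      have := hMn.conj_mem u hu h⁻¹
      rwa [inv_inv] at this
    rw [h3, hφ h _ (hMN h4)]
  have h3 : φ.1 u = 0 := by
    have := hφ 1 u (hMN hu)
    rwa [one_mul, h1] at this
  rw [h2, h3, zero_add]

/-- the characters mod 2 of `U` with admissible kernel, extended by zero -/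
def EXP_H (U : Subgroup G) : Type :=
  {c : G → ZMod 2 // (∀ u ∈ U, ∀ v ∈ U, c (u * v) = c u + c v) ∧ (∀ g, g ∉ U → c g = 0) ∧
    ∃ N ∈ S.adm, N ≤ U ∧ ∀ u ∈ N, c u = 0}

/-- the subgroups of index two -/
abbrev EXP_W (U : Subgroup G) : Type := {W : Subgroup G // W ∈ S.adm ∧ W ≤ U ∧ W.relIndex U = 2}

theorem EXP_mul_iff (U W : Subgroup G) (h : W.relIndex U = 2) (u v : G) (hu : u ∈ U)
    (hv : v ∈ U) : u * v ∈ W ↔ (u ∈ W ↔ v ∈ W) := by
  have h1 : (W.subgroupOf U).index = 2 := h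
  have h2 := Subgroup.mul_mem_iff_of_index_two h1 (a := (⟨u, hu⟩ : U)) (b := ⟨v, hv⟩)
  simpa [Subgroup.mem_subgroupOf] using h2

open Classical in
/-- the character of a subgroup of index two -/
noncomputable def EXP_char (U : Subgroup G) (W : EXP_W S U) : EXP_H S U :=
  ⟨fun g => if g ∈ U ∧ g ∉ W.1 then 1 else 0, by
    refine ⟨?_, ?_, W.1, W.2.1, W.2.2.1, ?_⟩
    · intro u hu v hv
      have h := EXP_mul_iff U W.1 W.2.2.2 u v hu hv
      have huv := U.mul_mem hu hv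
      by_cases h1 : u ∈ W.1 <;> by_cases h2 : v ∈ W.1 <;> simp [hu, hv, huv, h, h1, h2]
      decide
    · intro g hg
      simp [hg]
    · intro u hu
      simp [hu]⟩

open Classical in
/-- all characters -/
noncomputable def EXP_opt (U : Subgroup G) (hU : U ∈ S.adm) : Option (EXP_W S U) → EXP_H S U
  | none => ⟨fun _ => 0, fun _ _ _ _ => by simp, fun _ _ => rfl, U, hU, le_refl _, fun _ _ => rfl⟩
  | some W => EXP_char S U W

theorem EXP_zmod2 (x : ZMod 2) : x = 0 ∨ x = 1 := by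
  revert x
  decide

theorem EXP_char_eq (U : Subgroup G) (W : EXP_W S U) (g : G) :
    (EXP_char S U W).1 g = 0 ↔ (g ∈ U → g ∈ W.1) := by
  classical
  show (if g ∈ U ∧ g ∉ W.1 then (1 : ZMod 2) else 0) = 0 ↔ _
  by_cases h1 : g ∈ U <;> by_cases h2 : g ∈ W.1 <;> simp [h1, h2]

theorem EXP_opt_bij (U : Subgroup G) (hU : U ∈ S.adm) : Function.Bijective (EXP_opt S U hU) := by
  classical
  have hne : ∀ W : EXP_W S U, ∃ g ∈ U, g ∉ W.1 := by
    intro W
    by_contra h
    push Not at h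
    have h1 : W.1.relIndex U = 1 := Subgroup.relIndex_eq_one.2 h
    have h2 := W.2.2.2
    omega
  constructor
  · intro a b hab
    have hab' : ∀ g, (EXP_opt S U hU a).1 g = (EXP_opt S U hU b).1 g := fun g => by rw [hab]
    rcases a with _ | a <;> rcases b with _ | b
    · rfl
    · exfalso
      obtain ⟨g, hg, hg'⟩ := hne b
      have h1 : (EXP_char S U b).1 g = 0 := (hab' g).symm
      exact hg' ((EXP_char_eq S U b g).1 h1 hg)
    · exfalso
      obtain ⟨g, hg, hg'⟩ := hne a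
      have h1 : (EXP_char S U a).1 g = 0 := hab' g
      exact hg' ((EXP_char_eq S U a g).1 h1 hg)
    · have h1 : a.1 = b.1 := by
        ext g
        have h2 : (EXP_char S U a).1 g = (EXP_char S U b).1 g := hab' g
        have h3 := EXP_char_eq S U a g
        have h4 := EXP_char_eq S U b g
        rw [h2] at h3
        have h5 : (g ∈ U → g ∈ a.1) ↔ (g ∈ U → g ∈ b.1) := h3.symm.trans h4
        constructor
        · intro hg
          exact (h5.1 (fun _ => hg)) (a.2.2.1 hg)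
        · intro hg
          exact (h5.2 (fun _ => hg)) (b.2.2.1 hg)
      rw [Subtype.ext h1]
  · rintro ⟨c, hc, hc0, N, hN, hNU, hcN⟩
    have hc1 : c 1 = 0 := hcN 1 N.one_mem
    by_cases h0 : ∀ g, c g = 0
    · refine ⟨none, ?_⟩
      apply Subtype.ext
      funext g
      exact (h0 g).symm
    · push Not at h0
      obtain ⟨g0, hg0⟩ := h0
      have hg0U : g0 ∈ U := by
        by_contra h
        exact hg0 (hc0 g0 h)
      have hinv : ∀ u ∈ U, c u⁻¹ = c u := by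
        intro u hu
        have h1 := hc u hu u⁻¹ (U.inv_mem hu)
        rw [mul_inv_cancel, hc1] at h1
        rcases EXP_zmod2 (c u) with h | h <;> rcases EXP_zmod2 (c u⁻¹) with h' | h' <;>
          rw [h, h'] at h1 ⊢
        · exact absurd h1 (by decide)
        · exact absurd h1 (by decide)
      let W : Subgroup G :=
        { carrier := {u | u ∈ U ∧ c u = 0}
          one_mem' := ⟨U.one_mem, hc1⟩
          mul_mem' := by
            rintro a b ⟨ha, ha'⟩ ⟨hb, hb'⟩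
            exact ⟨U.mul_mem ha hb, by rw [hc a ha b hb, ha', hb', add_zero]⟩
          inv_mem' := by
            rintro a ⟨ha, ha'⟩
            exact ⟨U.inv_mem ha, by rw [hinv a ha, ha']⟩ }
      have hWm : ∀ u, u ∈ W ↔ u ∈ U ∧ c u = 0 := fun u => Iff.rfl
      have hWU : W ≤ U := fun u hu => hu.1
      have hWadm : W ∈ S.adm := S.up_mem N hN W (fun u hu => ⟨hNU hu, hcN u hu⟩)
      have hW2 : W.relIndex U = 2 := by
        show (W.subgroupOf U).index = 2
        rw [Subgroup.index_eq_two_iff]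
        refine ⟨⟨g0, hg0U⟩, ?_⟩
        rintro ⟨b, hb⟩
        rw [Subgroup.mem_subgroupOf, Subgroup.mem_subgroupOf]
        show Xor (b * g0 ∈ W) (b ∈ W)
        rw [hWm, hWm, hc b hb g0 hg0U]
        have hg1 : c g0 = 1 := (EXP_zmod2 (c g0)).resolve_left hg0
        rw [hg1]
        rcases EXP_zmod2 (c b) with h | h
        · right
          rw [h]
          exact ⟨⟨hb, rfl⟩, fun h' => absurd h'.2 (by decide)⟩
        · left
          rw [h]
          exact ⟨⟨U.mul_mem hb hg0U, by decide⟩, fun h' => absurd h'.2 (by decide)⟩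
      refine ⟨some ⟨W, hWadm, hWU, hW2⟩, ?_⟩
      apply Subtype.ext
      funext g
      show (if g ∈ U ∧ g ∉ W then (1 : ZMod 2) else 0) = c g
      by_cases hg : g ∈ U
      · rcases EXP_zmod2 (c g) with h | h
        · have : g ∈ W := ⟨hg, h⟩
          simp [this, h]
        · have : g ∉ W := fun h' => by
            have := h'.2
            rw [h] at this
            exact absurd this (by decide)
          simp [hg, this, h]
      · simp [hg, hc0 g hg]

theorem EXP_H_card (U : Subgroup G) (hU : U ∈ S.adm) :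
    Finite (EXP_H S U) ∧ Nat.card (EXP_H S U) = Nat.card (EXP_W S U) + 1 := by
  have hfin : Finite (EXP_W S U) := (S.fg U hU).to_subtype
  have hb := EXP_opt_bij S U hU
  refine ⟨Finite.of_surjective _ hb.2, ?_⟩
  rw [← Nat.card_eq_of_bijective _ hb, Finite.card_option]

open Classical in
/-- the two coordinates of a fixed vector -/
noncomputable def EXP_psi (U : Subgroup G) (hU : U ∈ S.adm) (x : fix (EXP_rho S) U × ZMod 2) :
    EXP_H S U × (G ⧸ U → ZMod 2) :=
  (⟨fun g => if g ∈ U then x.1.1.1 g else 0, by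
    have hx := (EXP_mem_fix S U x.1.1).1 x.1.2
    obtain ⟨h1, N, hN, hφ⟩ := x.1.1.2
    refine ⟨?_, ?_, ?_⟩
    · intro u hu v hv
      show (if u * v ∈ U then x.1.1.1 (u * v) else 0) = (if u ∈ U then x.1.1.1 u else 0) +
        (if v ∈ U then x.1.1.1 v else 0)
      rw [if_pos hu, if_pos hv, if_pos (U.mul_mem hu hv), hx u hu v]
    · intro g hg
      exact if_neg hg
    · refine ⟨N ⊓ U, S.inf_mem N hN U hU, inf_le_right, ?_⟩
      intro u hu
      show (if u ∈ U then x.1.1.1 u else 0) = 0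
      rw [if_pos (show u ∈ U from hu.2)]
      have := hφ 1 u hu.1
      rw [one_mul, h1] at this
      exact this⟩,
  fun q => if q = ((1 : G) : G ⧸ U) then x.2 else x.1.1.1 (Quotient.out q)⁻¹)

theorem EXP_mk_one (U : Subgroup G) (g : G) : ((g⁻¹ : G) : G ⧸ U) = ((1 : G) : G ⧸ U) ↔ g ∈ U := by
  rw [QuotientGroup.eq]
  simp

theorem EXP_out (U : Subgroup G) (g : G) : g * Quotient.out ((g⁻¹ : G) : G ⧸ U) ∈ U := by
  have h1 : ((Quotient.out ((g⁻¹ : G) : G ⧸ U) : G) : G ⧸ U) = ((g⁻¹ : G) : G ⧸ U) :=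
    QuotientGroup.out_eq' _
  have h2 := QuotientGroup.eq.1 h1.symm
  rwa [inv_inv] at h2

theorem EXP_psi_inj (U : Subgroup G) (hU : U ∈ S.adm) : Function.Injective (EXP_psi S U hU) := by
  classical
  rintro ⟨φ, a⟩ ⟨ψ, b⟩ h
  have h1 : ∀ g, (if g ∈ U then φ.1.1 g else 0) = (if g ∈ U then ψ.1.1 g else 0) := fun g =>
    congrFun (congrArg Subtype.val (congrArg Prod.fst h)) g
  have h2 : ∀ q : G ⧸ U, (if q = ((1 : G) : G ⧸ U) then a else φ.1.1 (Quotient.out q)⁻¹) =
      (if q = ((1 : G) : G ⧸ U) then b else ψ.1.1 (Quotient.out q)⁻¹) := fun q =>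
    congrFun (congrArg Prod.snd h) q
  have hab : a = b := by
    have := h2 ((1 : G) : G ⧸ U)
    rwa [if_pos rfl, if_pos rfl] at this
  have hφ := (EXP_mem_fix S U φ.1).1 φ.2
  have hψ := (EXP_mem_fix S U ψ.1).1 ψ.2
  have hU1 : ∀ g ∈ U, φ.1.1 g = ψ.1.1 g := fun g hg => by
    have := h1 g
    rwa [if_pos hg, if_pos hg] at this
  have hall : ∀ g, φ.1.1 g = ψ.1.1 g := by
    intro g
    by_cases hg : g ∈ U
    · exact hU1 g hg
    · have h3 : ((g⁻¹ : G) : G ⧸ U) ≠ ((1 : G) : G ⧸ U) := fun h' => hg ((EXP_mk_one U g).1 h')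
      have h4 := h2 ((g⁻¹ : G) : G ⧸ U)
      rw [if_neg h3, if_neg h3] at h4
      have h5 := EXP_out U g
      have h6 : g = (g * Quotient.out ((g⁻¹ : G) : G ⧸ U)) *
          (Quotient.out ((g⁻¹ : G) : G ⧸ U))⁻¹ := by group
      rw [h6, hφ _ h5, hψ _ h5, hU1 _ h5, h4]
  have : φ = ψ := by
    apply Subtype.ext
    apply Subtype.ext
    funext g
    exact hall g
  rw [this, hab]

theorem EXP_psi_surj (U : Subgroup G) (hU : U ∈ S.adm) : Function.Surjective (EXP_psi S U hU) := by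
  classical
  rintro ⟨⟨c, hc, hc0, N, hN, hNU, hcN⟩, v⟩
  have hc1 : c 1 = 0 := hcN 1 N.one_mem
  set f : G → ZMod 2 := fun g => if ((g⁻¹ : G) : G ⧸ U) = ((1 : G) : G ⧸ U) then c g else
    c (g * Quotient.out ((g⁻¹ : G) : G ⧸ U)) + v ((g⁻¹ : G) : G ⧸ U) with hf
  have hfU : ∀ g ∈ U, f g = c g := fun g hg => if_pos ((EXP_mk_one U g).2 hg)
  have hfn : ∀ g, g ∉ U → f g = c (g * Quotient.out ((g⁻¹ : G) : G ⧸ U)) +
      v ((g⁻¹ : G) : G ⧸ U) := fun g hg => if_neg (fun h' => hg ((EXP_mk_one U g).1 h'))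
  have hf1 : f 1 = 0 := by rw [hfU 1 U.one_mem, hc1]
  have hadd : ∀ u ∈ U, ∀ h, f (u * h) = f u + f h := by
    intro u hu h
    by_cases hh : h ∈ U
    · rw [hfU _ (U.mul_mem hu hh), hfU u hu, hfU h hh, hc u hu h hh]
    · have h1 : u * h ∉ U := fun h' => hh ((U.mul_mem_cancel_left hu).1 h')
      have h2 : (((u * h)⁻¹ : G) : G ⧸ U) = ((h⁻¹ : G) : G ⧸ U) := by
        rw [QuotientGroup.eq]
        simpa using hu
      rw [hfn _ h1, hfn _ hh, hfU u hu, h2, mul_assoc, hc u hu _ (EXP_out U h), add_assoc]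
  have hfR : f ∈ EXP_R S := by
    refine ⟨hf1, ?_⟩
    obtain ⟨M, hM, hMN, hMn, -⟩ := S.core N hN
    refine ⟨M, hM, fun g u hu => ?_⟩
    have h3 : g * u = (g * u * g⁻¹) * g := by group
    have h4 : g * u * g⁻¹ ∈ M := hMn.conj_mem u hu g
    rw [h3, hadd _ (hNU (hMN h4)), hfU _ (hNU (hMN h4)), hcN _ (hMN h4), zero_add]
  have hffix : (⟨f, hfR⟩ : EXP_R S) ∈ fix (EXP_rho S) U := (EXP_mem_fix S U _).2 hadd
  refine ⟨(⟨⟨f, hfR⟩, hffix⟩, v ((1 : G) : G ⧸ U)), ?_⟩
  apply Prod.ext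
  · apply Subtype.ext
    funext g
    show (if g ∈ U then f g else 0) = c g
    by_cases hg : g ∈ U
    · rw [if_pos hg, hfU g hg]
    · rw [if_neg hg, hc0 g hg]
  · funext q
    show (if q = ((1 : G) : G ⧸ U) then v ((1 : G) : G ⧸ U) else f (Quotient.out q)⁻¹) = v q
    by_cases hq : q = ((1 : G) : G ⧸ U)
    · rw [if_pos hq, hq]
    · rw [if_neg hq]
      have h1 : (((Quotient.out q)⁻¹⁻¹ : G) : G ⧸ U) = q := by
        rw [inv_inv]
        exact QuotientGroup.out_eq' q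
      have h2 : (Quotient.out q)⁻¹ ∉ U := fun h' => hq (by
        rw [← h1]
        exact (EXP_mk_one U _).2 h')
      rw [hfn _ h2, h1, inv_mul_cancel, hc1, zero_add]

theorem EXP_fix_card (U : Subgroup G) (hU : U ∈ S.adm) :
    Finite (fix (EXP_rho S) U) ∧
      Nat.card (fix (EXP_rho S) U) * 2 = (Nat.card (EXP_W S U) + 1) * 2 ^ U.index := by
  classical
  have hH := EXP_H_card S U hU
  have hHf := hH.1
  have hidx : U.index ≠ 0 := by
    obtain ⟨N, hN, hNU, hNn, k, hk⟩ := S.core U hU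
    intro h0
    have h1 := Subgroup.index_dvd_of_le hNU
    rw [h0, hk] at h1
    have h2 := Nat.eq_zero_of_zero_dvd h1
    exact absurd h2 (by positivity)
  have hfi : U.FiniteIndex := ⟨hidx⟩
  have hQ : Finite (G ⧸ U) := inferInstance
  have hb : Function.Bijective (EXP_psi S U hU) := ⟨EXP_psi_inj S U hU, EXP_psi_surj S U hU⟩
  have hfin : Finite (fix (EXP_rho S) U × ZMod 2) := Finite.of_injective _ hb.1
  refine ⟨Finite.of_injective (fun x : fix (EXP_rho S) U => (x, (0 : ZMod 2)))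
    (fun x y h => congrArg Prod.fst h), ?_⟩
  have h1 := Nat.card_eq_of_bijective _ hb
  rw [Nat.card_prod, Nat.card_prod, Nat.card_fun, hH.2, Nat.card_zmod] at h1
  exact h1

end EXP

theorem exp_proof : Stmt_EXP := by
  intro G _ S
  refine ⟨EXP_R S, inferInstance, inferInstance, EXP_rho S, ⟨EXP_smooth S, ?_⟩, ?_⟩
  · intro U hU
    have := (EXP_fix_card S U hU).1
    exact Module.Finite.of_finite
  · intro U hU n hn
    have h := EXP_fix_card S U hU
    have hf := h.1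
    have hfd : Module.Finite (ZMod 2) (fix (EXP_rho S) U) := Module.Finite.of_finite
    have h1 : Nat.card (fix (EXP_rho S) U) = 2 ^ bb (EXP_rho S) U := by
      have := Module.natCard_eq_pow_finrank (K := ZMod 2) (V := fix (EXP_rho S) U)
      rw [Nat.card_zmod] at this
      exact this
    have h2 := h.2
    have hn' : Nat.card (EXP_W S U) + 1 = 2 ^ n := hn
    rw [h1, hn', ← pow_succ, ← pow_add] at h2
    exact Nat.pow_right_injective (le_refl 2) h2

end Pool.Agent.ETT
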