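import Pool.Agent.ETT.StmtsZ

/-!
Module FSV of the squad ETT: finitely many square classes, two forms.
-/

set_option autoImplicit false

namespace Pool.Agent.ETT

open Pool.Agent.EWG

theorem fsv_proof : Stmt_FSV := by
  intro F Om _ _ _
  constructor
  · intro hfin
    classical
    have := Fintype.ofFinite (VV F)
    have hrep : ∀ v : VV F, ∃ a : Fˣ, vm a = v := vm_surj
    choose r hr using hrep
    refine ⟨Finset.univ.image fun v : VV F => algebraMap F Om (r v : F), ?_, ?_⟩
    · intro y hy
      simp only [Finset.coe_image, Finset.coe_univ, Set.image_univ, Set.mem_range] at hy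
      obtain ⟨v, rfl⟩ := hy
      exact ⟨_, rfl⟩
    · rintro a ⟨a, rfl⟩ ha
      have ha0 : a ≠ 0 := by
        rintro rfl
        exact ha (map_zero _)
      let u : Fˣ := Units.mk0 a ha0
      have h1 : vm u = vm (r (vm u)) := (hr (vm u)).symm
      obtain ⟨c, hc⟩ := (vm_eq_iff _ _).1 h1
      have h2 : a * (r (vm u) : F) = (c : F) * c := congrArg (fun y : Fˣ => (y : F)) hc
      have h3 : (r (vm u) : F) ≠ 0 := (r (vm u)).ne_zero
      refine ⟨_, Finset.mem_image.2 ⟨vm u, Finset.mem_univ _, rfl⟩,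
        algebraMap F Om ((c : F) / (r (vm u) : F)), ⟨_, rfl⟩, ?_, ?_⟩
      · rw [Ne, map_eq_zero]
        exact div_ne_zero c.ne_zero h3
      · rw [← map_pow, ← map_mul]
        congr 1
        field_simp
        linear_combination h2
  · rintro K ⟨s, hsK, hs⟩
    classical
    let f : {b : s // (b : Om) ≠ 0} → VV K := fun b =>
      vm (Units.mk0 (⟨(b : s), hsK b.1.2⟩ : K) (by
        intro h0
        exact b.2 (congrArg (fun y : K => (y : Om)) h0)))
    refine Finite.of_surjective f ?_
    intro v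
    obtain ⟨a, rfl⟩ := vm_surj v
    obtain ⟨b, hb, c, hcK, hc0, h⟩ := hs ((a : K) : Om) (a : K).2 (by
      intro h0
      exact a.ne_zero (Subtype.ext h0))
    have hb0 : b ≠ 0 := by
      rintro rfl
      rw [zero_mul] at h
      exact a.ne_zero (Subtype.ext h)
    refine ⟨⟨⟨b, hb⟩, hb0⟩, ?_⟩
    show vm _ = vm a
    rw [vm_eq_iff]
    have hcK0 : (⟨c, hcK⟩ : K) ≠ 0 := by
      intro h0
      exact hc0 (congrArg (fun y : K => (y : Om)) h0)
    have hbK0 : (⟨b, hsK hb⟩ : K) ≠ 0 := by
      intro h0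
      exact hb0 (congrArg (fun y : K => (y : Om)) h0)
    refine ⟨Units.mk0 _ hbK0 * Units.mk0 _ hcK0, ?_⟩
    apply Units.ext
    apply Subtype.ext
    show b * ((a : K) : Om) = (b * c) * (b * c)
    rw [h]
    ring

end Pool.Agent.ETT
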