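import Pool.Agent.ETT.StmtsZ

/-!
# ETT, module FTT: a total element in `F` (MP_d26ff6_al)
-/

set_option autoImplicit false

namespace Pool.Agent.ETT

open Module Pool.Agent.EWG

theorem ftt_proof (hSTD : Stmt_STD) (hSYS : Stmt_SYS) (hQSY : Stmt_QSY) (hTOT : Stmt_TOT)
    (hADB : Stmt_ADB) (hIND : Stmt_IND) (hDWN : Stmt_DWN) (hGFX : Stmt_GFX) (hISF : Stmt_ISF) :
    Stmt_FTT := by
  intro F _ hG hI hV hIWA
  set Om := SeparableClosure F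
  have hS : Std F Om := hSTD F hG hV
  obtain ⟨S, hadm, hmu⟩ := hSYS F Om hS
  obtain ⟨Q, hQ⟩ := hQSY F Om hS hI S hadm
  obtain ⟨U, hU, x, hx⟩ := hTOT (Om ≃ₐ[F] Om) S (hIWA S hmu) Q
  have hT : TotF (KU F Om U) := hQ U hU x hx
  obtain ⟨_, _, hup, _, hcore, _⟩ := hADB (Om ≃ₐ[F] Om)
  obtain ⟨g1, _, _, _⟩ := hGFX F Om hS
  rw [hadm] at hU
  have hTop : TotF (KU F Om (⊤ : Subgroup (Om ≃ₐ[F] Om))) := by
    refine (hIND (Om ≃ₐ[F] Om) (admT (Om ≃ₐ[F] Om)) hup ?_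
      (fun U => TotF (KU F Om U))).2 ?_ U hU hT
    · intro U hU
      obtain ⟨N, _, h1, h2, h3⟩ := hcore U hU
      exact ⟨N, h1, h2, h3⟩
    · intro U hU W hW hWU hrel hP
      exact hDWN F Om hS hI U hU W hW hWU hrel hP
  -- the isomorphism `F ≃ K_⊤`
  have hmem : ∀ a : F, algebraMap F Om a ∈ KU F Om (⊤ : Subgroup (Om ≃ₐ[F] Om)) :=
    fun a => (g1 _).2 ⟨a, rfl⟩
  let f : F →+* KU F Om (⊤ : Subgroup (Om ≃ₐ[F] Om)) :=
    algebraMap F (KU F Om (⊤ : Subgroup (Om ≃ₐ[F] Om)))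
  have hf : Function.Bijective f := by
    refine ⟨f.injective, ?_⟩
    rintro ⟨y, hy⟩
    obtain ⟨a, ha⟩ := (g1 y).1 hy
    exact ⟨a, Subtype.ext ha⟩
  exact (hISF (KU F Om (⊤ : Subgroup (Om ≃ₐ[F] Om))) F
    (RingEquiv.ofBijective f hf).symm).2.2.1 hTop

end Pool.Agent.ETT
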