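import Pool.Agent.ETT.StmtsZ

/-!
# ETT, module GDU: the fields `K_U` satisfy the hypotheses of the Witt side (MP_d26ff6_al)
-/

set_option autoImplicit false

namespace Pool.Agent.ETT

open Module Pool.Agent.EWG

theorem gdu_proof (hADB : Stmt_ADB) (hIND : Stmt_IND) (hGFX : Stmt_GFX) (hKU2 : Stmt_KU2)
    (hVFU : Stmt_VFU) (hQDX : Stmt_QDX) (hISF : Stmt_ISF) (hFSV : Stmt_FSV)
    (hI3K : EWG.Stmt_I3K) (hFIN : EWG.Stmt_FIN) : Stmt_GDU := by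
  intro F Om _ _ _ hS hI3
  obtain ⟨_, _, hup, _, hcore, _⟩ := hADB (Om ≃ₐ[F] Om)
  obtain ⟨g1, _, _, _⟩ := hGFX F Om hS
  have hGF : Good F := ⟨hS.two, hS.im⟩
  have hGood : ∀ U : Subgroup (Om ≃ₐ[F] Om), Good (KU F Om U) := fun U =>
    Good.map (algebraMap F (KU F Om U)) hGF
  -- the isomorphism `F ≃ K_⊤`
  let f : F →+* KU F Om (⊤ : Subgroup (Om ≃ₐ[F] Om)) :=
    algebraMap F (KU F Om (⊤ : Subgroup (Om ≃ₐ[F] Om)))
  have hf : Function.Bijective f := by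
    refine ⟨f.injective, ?_⟩
    rintro ⟨y, hy⟩
    obtain ⟨a, ha⟩ := (g1 y).1 hy
    exact ⟨a, Subtype.ext ha⟩
  have hI : ∀ U ∈ admT (Om ≃ₐ[F] Om), I3 (KU F Om U) := by
    refine (hIND (Om ≃ₐ[F] Om) (admT (Om ≃ₐ[F] Om)) hup ?_
      (fun U => I3 (KU F Om U))).1 ?_ ?_
    · intro U hU
      obtain ⟨N, _, h1, h2, h3⟩ := hcore U hU
      exact ⟨N, h1, h2, h3⟩
    · exact (hISF F _ (RingEquiv.ofBijective f hf)).2.1 hI3
    · intro U hU W hW hWU hrel hP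
      obtain ⟨t, ht, ht2, hWt⟩ := hKU2 F Om hS U hU W hW hWU hrel
      obtain ⟨_, E, _⟩ := hQDX F Om hS U hU W hW hWU hrel t ht ht2 hWt
      exact hI3K (KU F Om U) (KU F Om W) (hGood U) hP E
  intro U hU
  have hfin : Finite (VV (KU F Om U)) := (hFSV F Om).2 (KU F Om U) (hVFU F Om hS U hU)
  exact ⟨hGood U, hI U hU, hfin, (hFIN (KU F Om U) (hGood U) hfin).1 (hI U hU)⟩

end Pool.Agent.ETT
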