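import Pool.Agent.ETT.Stmts

set_option autoImplicit false

namespace Pool.Agent.ETT

open Module

theorem gfx_proof (hADB : Stmt_ADB) : Stmt_GFX := by
  intro F Om _ _ _ hS
  have := hS.gal
  refine ⟨fun x => ?_, fun U x => ?_, fun U hU g hg => ?_, fun x => ?_⟩
  · rw [InfiniteGalois.mem_range_algebraMap_iff_fixed, IntermediateField.mem_fixedField_iff]
    exact ⟨fun h f => h f (Subgroup.mem_top f), fun h f _ => h f⟩
  · exact IntermediateField.mem_fixedField_iff U x
  · have hcl : IsClosed (U : Set (Om ≃ₐ[F] Om)) := ((hADB (Om ≃ₐ[F] Om)).2.2.2.2.2 U hU).2.1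
    have h := InfiniteGalois.fixingSubgroup_fixedField
      (⟨U, hcl⟩ : ClosedSubgroup (Om ≃ₐ[F] Om))
    have hm : g ∈ (IntermediateField.fixedField U).fixingSubgroup := by
      rw [IntermediateField.mem_fixingSubgroup_iff]
      intro x hx
      exact hg x hx
    have h2 : (IntermediateField.fixedField U).fixingSubgroup = U := h
    rw [h2] at hm
    exact hm
  · have h := stabilizer_isOpen_of_isIntegral (K := F) (L := Om) x
    have he : {g : Om ≃ₐ[F] Om | g x = x} =
        (MulAction.stabilizer (Om ≃ₐ[F] Om) x : Set (Om ≃ₐ[F] Om)) := by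
      ext g
      simp [MulAction.mem_stabilizer_iff]
    rw [he]
    exact h

end Pool.Agent.ETT
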