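import Pool.Agent.ETT.Stmts

/-!
Module IND: induction along quadratic steps, downwards and upwards.
-/

set_option autoImplicit false

namespace Pool.Agent.ETT

namespace IND_

theorem step (hUP2 : Stmt_UP2) {G : Type} [Group G] (adm : Set (Subgroup G))
    (hup : ∀ W ∈ adm, ∀ U : Subgroup G, W ≤ U → U ∈ adm)
    (hcore : ∀ U ∈ adm, ∃ N : Subgroup G, N ≤ U ∧ N.Normal ∧ ∃ k : ℕ, N.index = 2 ^ k)
    (U : Subgroup G) (hU : U ∈ adm) (hne : U ≠ ⊤) :
    ∃ U' ∈ adm, U ≤ U' ∧ U.relIndex U' = 2 ∧ U'.index < U.index := by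
  obtain ⟨N, h1, h2, k, h3⟩ := hcore U hU
  obtain ⟨U', h4, h5⟩ := hUP2 G N U k h2 h1 h3 hne
  refine ⟨U', hup U hU U' h4, h4, h5, ?_⟩
  have h6 := Subgroup.relIndex_mul_index h4
  have h7 := Subgroup.relIndex_mul_index (h1.trans h4)
  rw [h5] at h6
  have h8 : 0 < U'.index := by
    rcases Nat.eq_zero_or_pos U'.index with h | h
    · rw [h, mul_zero, h3] at h7
      exact absurd h7.symm (by positivity)
    · exact h
  omega

end IND_

theorem ind_proof (hUP2 : Stmt_UP2) : Stmt_IND := by
  intro G _ adm hup hcore P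
  constructor
  · intro htop hs
    have key : ∀ n : ℕ, ∀ U ∈ adm, U.index = n → P U := by
      intro n
      induction n using Nat.strong_induction_on with
      | _ n ih =>
        intro U hU hn
        by_cases hne : U = ⊤
        · rw [hne]; exact htop
        · obtain ⟨U', h1, h2, h3, h4⟩ := IND_.step hUP2 adm hup hcore U hU hne
          exact hs U' h1 U hU h2 h3 (ih U'.index (hn ▸ h4) U' h1 rfl)
    intro U hU
    exact key U.index U hU rfl
  · intro hs
    have key : ∀ n : ℕ, ∀ U ∈ adm, U.index = n → P U → P ⊤ := by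
      intro n
      induction n using Nat.strong_induction_on with
      | _ n ih =>
        intro U hU hn hP
        by_cases hne : U = ⊤
        · rw [← hne]; exact hP
        · obtain ⟨U', h1, h2, h3, h4⟩ := IND_.step hUP2 adm hup hcore U hU hne
          exact ih U'.index (hn ▸ h4) U' h1 rfl (hs U' h1 U hU h2 h3 hP)
    intro U hU hP
    exact key U.index U hU rfl hP

end Pool.Agent.ETT
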