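import Pool.Agent.ETT.StmtsZ

/-!
Module ISF: invariance under isomorphisms of fields.
-/

set_option autoImplicit false

namespace Pool.Agent.ETT

open Module Pool.Agent.EWG

namespace ISF_

open scoped BigOperators

/-- the projection to the Witt ring -/
noncomputable def pr (K : Type) [Field K] : MonoidAlgebra (ZMod 2) Kˣ →+* W K :=
  Ideal.Quotient.mk (rel K)

theorem pr_surj (K : Type) [Field K] : Function.Surjective (pr K) := Ideal.Quotient.mk_surjective

theorem pr_of {K : Type} [Field K] (w : Kˣ) : pr K (MonoidAlgebra.of (ZMod 2) Kˣ w) = br w := rfl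

/-- every element of the group algebra is a sum of group elements -/
theorem exists_sum {K : Type} [Field K] (f : MonoidAlgebra (ZMod 2) Kˣ) :
    ∃ (n : ℕ) (w : Fin n → Kˣ), f = ∑ i, MonoidAlgebra.of (ZMod 2) Kˣ (w i) := by
  classical
  refine ⟨f.coeff.support.card, fun i => (f.coeff.support.equivFin.symm i : Kˣ), ?_⟩
  rw [Equiv.sum_comp f.coeff.support.equivFin.symm
    (fun u : f.coeff.support => MonoidAlgebra.of (ZMod 2) Kˣ (u : Kˣ))]
  rw [Finset.sum_coe_sort f.coeff.support (fun u => MonoidAlgebra.of (ZMod 2) Kˣ u)]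
  conv_lhs => rw [← MonoidAlgebra.sum_coeff_single f]
  rw [Finsupp.sum]
  apply Finset.sum_congr rfl
  intro u hu
  rw [MonoidAlgebra.of_apply]
  congr 1
  have h := Finsupp.mem_support_iff.1 hu
  generalize f.coeff u = z at h
  revert h
  revert z
  decide

theorem exists_br {K : Type} [Field K] (c : W K) :
    ∃ (n : ℕ) (w : Fin n → Kˣ), c = ∑ i, br (w i) := by
  obtain ⟨f, rfl⟩ := pr_surj K c
  obtain ⟨n, w, rfl⟩ := exists_sum f
  refine ⟨n, w, ?_⟩
  rw [map_sum]
  rfl

section

variable {K L : Type} [Field K] [Field L]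

/-- the map on units -/
abbrev um (e : K ≃+* L) (a : Kˣ) : Lˣ := Units.map (e : K →+* L).toMonoidHom a

theorem um_symm (e : K ≃+* L) (b : Lˣ) : um e (um e.symm b) = b := by
  ext
  exact e.apply_symm_apply (b : L)

theorem map_pf1 {f : K →+* L} {g : W K →+* W L} (hg : IsMap f g) (a : Kˣ) :
    g (pf1 a) = pf1 (Units.map f.toMonoidHom a) := by
  unfold pf1
  rw [map_add, map_one, hg]

theorem map_pf {f : K →+* L} {g : W K →+* W L} (hg : IsMap f g) (a b : Kˣ) :
    g (pf a b) = pf (Units.map f.toMonoidHom a) (Units.map f.toMonoidHom b) := by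
  unfold pf
  rw [map_mul, map_pf1 hg, map_pf1 hg]

theorem map_pf3 {f : K →+* L} {g : W K →+* W L} (hg : IsMap f g) (a b c : Kˣ) :
    g (pf3 a b c) = pf3 (Units.map f.toMonoidHom a) (Units.map f.toMonoidHom b)
      (Units.map f.toMonoidHom c) := by
  unfold pf3
  rw [map_mul, map_mul, map_pf1 hg, map_pf1 hg, map_pf1 hg]

theorem map_I2 {f : K →+* L} {g : W K →+* W L} (hg : IsMap f g) (c : W K)
    (hc : c ∈ (EWG.I K) ^ 2) : g c ∈ (EWG.I L) ^ 2 := by
  have h1 : Ideal.map g (EWG.I K) ≤ EWG.I L := by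
    unfold EWG.I
    rw [Ideal.map_span, Ideal.span_le]
    rintro _ ⟨_, ⟨a, rfl⟩, rfl⟩
    rw [map_pf1 hg]
    exact Ideal.subset_span ⟨_, rfl⟩
  have h2 : g c ∈ Ideal.map g ((EWG.I K) ^ 2) := Ideal.mem_map_of_mem g hc
  rw [Ideal.map_pow] at h2
  exact Ideal.pow_right_mono h1 2 h2

theorem comp_id (e : K ≃+* L) {g : W K →+* W L} {g' : W L →+* W K}
    (hg : IsMap (e : K →+* L) g) (hg' : IsMap (e.symm : L →+* K) g') (c : W L) :
    g (g' c) = c := by
  obtain ⟨n, w, rfl⟩ := exists_br c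
  rw [map_sum, map_sum]
  apply Finset.sum_congr rfl
  intro i _
  rw [hg', hg]
  congr 1
  exact um_symm e (w i)

end

end ISF_

open ISF_ in
theorem isf_proof (hMAP : EWG.Stmt_MAP) : Stmt_ISF := by
  intro K L _ _ e
  obtain ⟨g, hg, _⟩ := hMAP K L (e : K →+* L)
  obtain ⟨g', hg', _⟩ := hMAP L K (e.symm : L →+* K)
  refine ⟨fun h => h.map (e : K →+* L), ?_, ?_, ?_⟩
  · intro h a b c
    have h1 := map_pf3 hg (um e.symm a) (um e.symm b) (um e.symm c)
    rw [h, map_zero] at h1
    have ha : Units.map (e : K →+* L).toMonoidHom (um e.symm a) = a := um_symm e a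
    have hb : Units.map (e : K →+* L).toMonoidHom (um e.symm b) = b := um_symm e b
    have hc : Units.map (e : K →+* L).toMonoidHom (um e.symm c) = c := um_symm e c
    rw [ha, hb, hc] at h1
    exact h1.symm
  · rintro ⟨a, ha⟩
    refine ⟨um e a, fun c hc => ?_⟩
    obtain ⟨b, hb⟩ := ha (g' c) (map_I2 hg' c hc)
    refine ⟨um e b, ?_⟩
    have h1 := map_pf hg a b
    rw [hb, comp_id e hg hg'] at h1
    exact h1.symm
  · intro hfin
    have hc : ∀ v : VV K, ∃ a : Kˣ, vm a = v := vm_surj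
    choose r hr using hc
    refine Finite.of_surjective (fun v => (vm (um e (r v)) : VV L)) ?_
    intro w
    obtain ⟨b, rfl⟩ := vm_surj w
    refine ⟨vm (um e.symm b), ?_⟩
    have h1 := hr (vm (um e.symm b))
    rw [vm_eq_iff] at h1
    show vm (um e (r (vm (um e.symm b)))) = vm b
    rw [vm_eq_iff]
    obtain ⟨z, hz⟩ := h1
    refine ⟨um e z, ?_⟩
    have h2 := congrArg (um e) hz
    have h3 : um e (r (vm (um e.symm b)) * um e.symm b) =
        um e (r (vm (um e.symm b))) * um e (um e.symm b) := map_mul _ _ _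
    have h4 : um e (z * z) = um e z * um e z := map_mul _ _ _
    rw [h3, um_symm, h4] at h2
    exact h2

end Pool.Agent.ETT
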