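import Pool.Agent.ETT.Stmts

set_option autoImplicit false

namespace Pool.Agent.ETT

theorem ku1_proof (hADB : Stmt_ADB) (hAIX : Stmt_AIX) (hGFX : Stmt_GFX) : Stmt_KU1 := by
  intro F Om _ _ _ hS U hU t ht ht2
  obtain ⟨-, hfix, -, hop⟩ := hGFX F Om hS
  have h2 : (2 : Om) ≠ 0 := by
    have := (map_ne_zero (algebraMap F Om)).2 hS.two
    rwa [map_ofNat] at this
  have hpm : ∀ g ∈ U, g t = t ∨ g t = -t := by
    intro g hg
    have h1 := (hfix U (t ^ 2)).1 ht2 g hg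
    rw [map_pow] at h1
    exact sq_eq_sq_iff_eq_or_eq_neg.1 h1
  have ht0 : t ≠ 0 := by
    rintro rfl
    exact ht (zero_mem _)
  have hne : -t ≠ t := by
    intro h
    have : 2 * t = 0 := by
      rw [two_mul]; nth_rewrite 1 [← h]; ring
    rcases mul_eq_zero.1 this with h | h
    · exact h2 h
    · exact ht0 h
  have hex : ∃ g0 ∈ U, g0 t = -t := by
    rw [hfix] at ht
    push Not at ht
    obtain ⟨g0, hg0, hg⟩ := ht
    exact ⟨g0, hg0, (hpm g0 hg0).resolve_left hg⟩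
  obtain ⟨g0, hg0, hg0t⟩ := hex
  let W : Subgroup (Om ≃ₐ[F] Om) := U ⊓ MulAction.stabilizer (Om ≃ₐ[F] Om) t
  have hmem : ∀ g, g ∈ W ↔ g ∈ U ∧ g t = t := fun g => Iff.rfl
  have hWU : W ≤ U := inf_le_left
  have hopen : IsOpen (W : Set (Om ≃ₐ[F] Om)) := by
    have h1 : (W : Set (Om ≃ₐ[F] Om)) = (U : Set (Om ≃ₐ[F] Om)) ∩ {g | g t = t} := by
      ext g; exact hmem g
    rw [h1]
    exact ((hADB (Om ≃ₐ[F] Om)).2.2.2.2.2 U hU).1.inter (hop t)
  have hidx : W.relIndex U = 2 := by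
    rw [Subgroup.relIndex, Subgroup.index_eq_two_iff]
    refine ⟨⟨g0, hg0⟩, ?_⟩
    intro b
    simp only [Subgroup.mem_subgroupOf, Subgroup.coe_mul]
    have hb := hpm b.1 b.2
    have key : (b.1 * g0) t = - (b.1 t) := by
      rw [AlgEquiv.mul_apply, hg0t, map_neg]
    rcases hb with hb | hb
    · right
      refine ⟨(hmem _).2 ⟨b.2, hb⟩, ?_⟩
      intro h
      have := ((hmem _).1 h).2
      rw [key, hb] at this
      exact hne this
    · left
      refine ⟨(hmem _).2 ⟨U.mul_mem b.2 hg0, ?_⟩, ?_⟩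
      · rw [key, hb, neg_neg]
      · intro h
        have := ((hmem _).1 h).2
        rw [hb] at this
        exact hne this
  exact ⟨W, hAIX _ U W hU hWU hopen hidx, hWU, hidx, by ext g; exact hmem g⟩

end Pool.Agent.ETT
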