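import Pool.Agent.ETT.Stmts

set_option autoImplicit false

namespace Pool.Agent.ETT

open Module

namespace KU2_

lemma two {G : Type} [Group G] {U W : Subgroup G} (h : W.relIndex U = 2) {a b : G} (ha : a ∈ U)
    (hb : b ∈ U) : a * b ∈ W ↔ (a ∈ W ↔ b ∈ W) := by
  have h1 : (W.subgroupOf U).index = 2 := h
  have h2 := Subgroup.mul_mem_iff_of_index_two h1 (a := ⟨a, ha⟩) (b := ⟨b, hb⟩)
  simpa [Subgroup.mem_subgroupOf] using h2

lemma ex {G : Type} [Group G] {U W : Subgroup G} (h : W.relIndex U = 2) : ∃ u ∈ U, u ∉ W := by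
  by_contra hc
  push Not at hc
  have h1 : U ≤ W := hc
  rw [Subgroup.relIndex_eq_one.2 h1] at h
  omega

end KU2_

theorem ku2_proof (_hADB : Stmt_ADB) (hGFX : Stmt_GFX) : Stmt_KU2 := by
  intro F Om _ _ _ hS U hU W hW hWU h2
  obtain ⟨-, hfix, hgal, -⟩ := hGFX F Om hS
  obtain ⟨u, huU, huW⟩ := KU2_.ex h2
  -- an element of `K_W` moved by `u`
  have h3 : ∃ s ∈ KU F Om W, u s ≠ s := by
    by_contra hc
    push Not at hc
    exact huW (hgal W hW u hc)
  obtain ⟨s, hs, hus⟩ := h3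
  have hsW : ∀ w ∈ W, w s = s := (hfix W s).1 hs
  have hu2 : u * u ∈ W := (KU2_.two h2 huU huU).2 Iff.rfl
  have hui : u⁻¹ ∈ U := U.inv_mem huU
  have huiW : u⁻¹ ∉ W := fun h => huW (by simpa using W.inv_mem h)
  have hconj : ∀ w ∈ W, u⁻¹ * (w * u) ∈ W := by
    intro w hw
    have hwu : w * u ∉ W := fun h => huW ((Subgroup.mul_mem_cancel_left W hw).1 h)
    rw [KU2_.two h2 hui (U.mul_mem (hWU hw) huU)]
    tauto
  have huus : u (u s) = s := by
    have := hsW _ hu2
    simpa [AlgEquiv.mul_apply] using this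
  have hwus : ∀ w ∈ W, w (u s) = u s := by
    intro w hw
    have h4 := hsW _ (hconj w hw)
    have h5 : u ((u⁻¹ * (w * u)) s) = u s := by rw [h4]
    have h6 : u ((u⁻¹ * (w * u)) s) = w (u s) := by
      rw [← AlgEquiv.mul_apply, mul_inv_cancel_left, AlgEquiv.mul_apply]
    rw [← h6, h5]
  have ht0 : s - u s ≠ 0 := fun h => hus (sub_eq_zero.1 h).symm
  have hut : u (s - u s) = -(s - u s) := by
    rw [map_sub, huus]; ring
  have hwt : ∀ w ∈ W, w (s - u s) = s - u s := by
    intro w hw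
    rw [map_sub, hsW w hw, hwus w hw]
  have h2O : (2 : Om) ≠ 0 := by
    have h7 := (map_ne_zero (algebraMap F Om)).2 hS.two
    rwa [map_ofNat] at h7
  have hne : -(s - u s) ≠ s - u s := by
    intro h
    have h8 : (2 : Om) * (s - u s) = 0 := by
      calc (2 : Om) * (s - u s) = (s - u s) - (-(s - u s)) := by ring
        _ = 0 := by rw [h, sub_self]
    rcases mul_eq_zero.1 h8 with h9 | h9
    · exact h2O h9
    · exact ht0 h9
  -- elements of `U` not in `W`
  have hgt : ∀ g ∈ U, g ∉ W → g (s - u s) = -(s - u s) := by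
    intro g hg hgW
    have h10 : u⁻¹ * g ∈ W := by
      rw [KU2_.two h2 hui hg]
      exact iff_of_false huiW hgW
    have h11 : g = u * (u⁻¹ * g) := by group
    rw [h11, AlgEquiv.mul_apply, hwt _ h10, hut]
  refine ⟨s - u s, ?_, ?_, ?_⟩
  · intro h
    have h12 := (hfix U _).1 h u huU
    rw [hut] at h12
    exact hne h12
  · rw [hfix]
    intro g hg
    rw [map_pow]
    by_cases hgW : g ∈ W
    · rw [hwt g hgW]
    · rw [hgt g hg hgW, neg_sq]
  · ext g
    simp only [SetLike.mem_coe, Set.mem_ofPred_eq]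
    constructor
    · intro hg
      exact ⟨hWU hg, hwt g hg⟩
    · rintro ⟨hg, h13⟩
      by_contra hgW
      rw [hgt g hg hgW] at h13
      exact hne h13

end Pool.Agent.ETT
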