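import Pool.Agent.ETT.Stmts

/-!
Module KU3 of the squad ETT: the quadratic extension `K_W = K_U(t)`.
-/

set_option autoImplicit false

namespace Pool.Agent.ETT

theorem ku3_proof (_hADB : Stmt_ADB) (hGFX : Stmt_GFX) : Stmt_KU3 := by
  intro F Om _ _ _ hS U _ W _ _ _ t ht ht2 hW
  obtain ⟨-, hfix, -, -⟩ := hGFX F Om hS
  have h2 : (2 : Om) ≠ 0 := by
    have := (map_ne_zero (algebraMap F Om)).2 hS.two
    rwa [map_ofNat] at this
  have ht0 : t ≠ 0 := by
    rintro rfl
    exact ht ((hfix U 0).2 fun g _ => map_zero g)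
  have hmW : ∀ g : Om ≃ₐ[F] Om, g ∈ W ↔ g ∈ U ∧ g t = t := by
    intro g
    have : g ∈ (W : Set (Om ≃ₐ[F] Om)) ↔ g ∈ {g | g ∈ U ∧ g t = t} := by rw [hW]
    exact this
  have hsq : ∀ s : Om, s ^ 2 ∈ KU F Om U → ∀ g ∈ U, g s = s ∨ g s = -s := by
    intro s hs g hg
    have h := (hfix U (s ^ 2)).1 hs g hg
    rw [map_pow] at h
    exact sq_eq_sq_iff_eq_or_eq_neg.1 h
  have hpm := hsq t ht2
  obtain ⟨g0, hg0, hg0t⟩ : ∃ g ∈ U, g t = -t := by
    by_contra hcon
    push Not at hcon
    apply ht
    rw [hfix]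
    intro g hg
    rcases hpm g hg with h | h
    · exact h
    · exact absurd h (hcon g hg)
  have hne : -t ≠ t := by
    intro h
    have : 2 * t = 0 := by
      calc 2 * t = t + t := two_mul t
        _ = t + (-t) := by rw [h]
        _ = 0 := add_neg_cancel t
    rcases mul_eq_zero.1 this with h | h
    · exact h2 h
    · exact ht0 h
  refine ⟨⟨g0, hg0, hg0t⟩, hpm, ?_, ?_⟩
  · intro z
    constructor
    · intro hz
      have hzW := (hfix W z).1 hz
      -- elements of `U` which move `t`
      have hA : ∀ g ∈ U, g t = -t → g z = g0 z := by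
        intro g hg hgt
        have hm : g0⁻¹ * g ∈ W := by
          rw [hmW]
          refine ⟨U.mul_mem (U.inv_mem hg0) hg, ?_⟩
          rw [AlgEquiv.mul_apply, hgt, map_neg]
          have : g0⁻¹ (g0 t) = t := by
            rw [← AlgEquiv.mul_apply, inv_mul_cancel]; rfl
          rw [hg0t, map_neg] at this
          exact this
        have h := hzW _ hm
        rw [AlgEquiv.mul_apply] at h
        have h3 : g0 (g0⁻¹ (g z)) = g z := by
          rw [← AlgEquiv.mul_apply, mul_inv_cancel]; rfl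
        rw [← h3, h]
      have hB : ∀ g ∈ U, g t = t → g (g0 z) = g0 z := by
        intro g hg hgt
        rw [← AlgEquiv.mul_apply]
        apply hA _ (U.mul_mem hg hg0)
        rw [AlgEquiv.mul_apply, hg0t, map_neg, hgt]
      have hC : ∀ g ∈ U, g t = -t → g (g0 z) = z := by
        intro g hg hgt
        rw [← AlgEquiv.mul_apply]
        apply hzW
        rw [hmW]
        refine ⟨U.mul_mem hg hg0, ?_⟩
        rw [AlgEquiv.mul_apply, hg0t, map_neg, hgt, neg_neg]
      refine ⟨(z + g0 z) / 2, ?_, (z - g0 z) / (2 * t), ?_, ?_⟩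
      · rw [hfix]
        intro g hg
        rcases hpm g hg with h | h
        · rw [map_div₀, map_add, map_ofNat, hzW g ((hmW g).2 ⟨hg, h⟩), hB g hg h]
        · rw [map_div₀, map_add, map_ofNat, hA g hg h, hC g hg h, add_comm]
      · rw [hfix]
        intro g hg
        rcases hpm g hg with h | h
        · rw [map_div₀, map_sub, map_mul, map_ofNat, hzW g ((hmW g).2 ⟨hg, h⟩), hB g hg h, h]
        · rw [map_div₀, map_sub, map_mul, map_ofNat, hA g hg h, hC g hg h, h, mul_neg,
            div_neg, ← neg_div, neg_sub]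
      · field_simp
        ring
    · rintro ⟨x, hx, y, hy, rfl⟩
      rw [hfix]
      intro g hg
      obtain ⟨hgU, hgt⟩ := (hmW g).1 hg
      rw [map_add, map_mul, hgt, (hfix U x).1 hx g hgU, (hfix U y).1 hy g hgU]
  · intro s hs hs2
    constructor
    · intro hWs
      have hms : ∀ g : Om ≃ₐ[F] Om, g ∈ W ↔ g ∈ U ∧ g s = s := by
        intro g
        have : g ∈ (W : Set (Om ≃ₐ[F] Om)) ↔ g ∈ {g | g ∈ U ∧ g s = s} := by rw [hWs]
        exact this
      refine ⟨s / t, ?_, div_ne_zero hs ht0, (div_mul_cancel₀ s ht0).symm⟩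
      rw [hfix]
      intro g hg
      rcases hpm g hg with h | h
      · have hgs := ((hms g).1 ((hmW g).2 ⟨hg, h⟩)).2
        rw [map_div₀, hgs, h]
      · rcases hsq s hs2 g hg with h' | h'
        · exfalso
          have := ((hmW g).1 ((hms g).2 ⟨hg, h'⟩)).2
          rw [h] at this
          exact hne this
        · rw [map_div₀, h, h', neg_div_neg_eq]
    · rintro ⟨c, hc, hc0, rfl⟩
      rw [hW]
      ext g
      simp only [Set.mem_setOf_eq]
      constructor
      · rintro ⟨hg, h⟩
        exact ⟨hg, by rw [map_mul, (hfix U c).1 hc g hg, h]⟩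
      · rintro ⟨hg, h⟩
        refine ⟨hg, ?_⟩
        rw [map_mul, (hfix U c).1 hc g hg] at h
        exact mul_left_cancel₀ hc0 h

end Pool.Agent.ETT
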