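import Pool.Agent.ETT.Stmts

/-!
# Squad ETT: module LFT (the Kummer cocycle of a system of square roots)
-/

set_option autoImplicit false

namespace Pool.Agent.ETT

open Module

namespace LFT_

open IsLocalRing

/-- divisibility by all powers of 2 -/
lemma eq_of_dvd {x y : ℤ_[2]} (h : ∀ j : ℕ, (2 : ℤ_[2]) ^ j ∣ x - y) : x = y := by
  rw [← PadicInt.ext_of_toZModPow]
  intro n
  rw [← sub_eq_zero, ← map_sub, ← RingHom.mem_ker, PadicInt.ker_toZModPow,
    Ideal.mem_span_singleton]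
  exact_mod_cast h n

/-- a compatible sequence of residues has a limit -/
lemma exists_lim (a : ℕ → ℕ) (h : ∀ j, a (j + 1) ≡ a j [MOD 2 ^ j]) :
    ∃ L : ℤ_[2], ∀ j, (2 : ℤ_[2]) ^ j ∣ L - a j := by
  have hd : ∀ (x y : ℤ_[2]) (n : ℕ),
      (x ≡ y [SMOD ((maximalIdeal ℤ_[2]) ^ n • ⊤ : Submodule ℤ_[2] ℤ_[2])]) ↔
        (2 : ℤ_[2]) ^ n ∣ x - y := by
    intro x y n
    simp only [← Ideal.one_eq_top, smul_eq_mul, mul_one, SModEq.sub_mem,
      PadicInt.maximalIdeal_eq_span_p, Ideal.span_singleton_pow, Ideal.mem_span_singleton]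
    norm_cast
  have h1 : ∀ j k, (2 : ℤ_[2]) ^ j ∣ (a (j + k) : ℤ_[2]) - a j := by
    intro j k
    induction k with
    | zero => simp
    | succ k ih =>
      have h2 : (2 : ℤ_[2]) ^ j ∣ (a (j + k + 1) : ℤ_[2]) - a (j + k) := by
        have h3 : (2 : ℤ) ^ (j + k) ∣ (a (j + k + 1) : ℤ) - a (j + k) := by
          have := ((Nat.modEq_iff_dvd).1 (h (j + k)).symm)
          exact_mod_cast this
        have h4 : (2 : ℤ) ^ j ∣ (a (j + k + 1) : ℤ) - a (j + k) :=
          (pow_dvd_pow 2 (Nat.le_add_right j k)).trans h3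
        have h5 := (PadicInt.pow_p_dvd_int_iff (p := 2) j ((a (j + k + 1) : ℤ) - a (j + k))).2
          (by exact_mod_cast h4)
        exact_mod_cast h5
      have h6 := dvd_add h2 ih
      rw [← add_assoc]
      refine h6.trans (dvd_of_eq ?_)
      ring
  obtain ⟨L, hL⟩ := IsPrecomplete.prec' (I := maximalIdeal ℤ_[2]) (M := ℤ_[2])
    (fun j => (a j : ℤ_[2])) (by
      intro m n hmn
      rw [hd]
      obtain ⟨k, rfl⟩ := Nat.exists_eq_add_of_le hmn
      rw [← neg_sub]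
      exact (dvd_neg).2 (h1 m k))
  refine ⟨L, fun j => ?_⟩
  have := (hd _ _ _).1 (hL j)
  rw [← neg_sub]
  exact (dvd_neg).2 this

/-- the primitive roots of unity -/
lemma prim {Om : Type} [Field Om] (h2 : (2 : Om) ≠ 0) (z : ℕ → Om) (hz : Rts z) (z0 : z 0 = 1)
    (z1 : z 1 = -1) (j : ℕ) : IsPrimitiveRoot (z j) (2 ^ j) := by
  have hp : ∀ j k, z (j + k) ^ 2 ^ k = z j := by
    intro j k
    induction k with
    | zero => simp
    | succ k ih =>
      rw [← add_assoc, pow_succ', pow_mul, hz, ih]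
  rcases j with _ | j
  · rw [z0, pow_zero]
    exact IsPrimitiveRoot.one
  · have h3 : orderOf (z (j + 1)) = 2 ^ (j + 1) := by
      refine orderOf_eq_prime_pow ?_ ?_
      · have := hp 1 j
        rw [add_comm] at this
        rw [this, z1]
        intro h4
        apply h2
        have h5 : (2 : Om) = 1 - (-1) := by norm_num
        rw [h5, h4, sub_self]
      · have := hp 0 (j + 1)
        rw [zero_add, z0] at this
        exact this
    rw [← h3]
    exact IsPrimitiveRoot.orderOf _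

lemma pow_eq_iff {Om : Type} [Field Om] {w : Om} {k : ℕ} (hk : 0 < k) (h : IsPrimitiveRoot w k)
    (m n : ℕ) : w ^ m = w ^ n ↔ m ≡ n [MOD k] := by
  have h1 : IsOfFinOrder w := by
    rw [isOfFinOrder_iff_pow_eq_one]
    exact ⟨k, hk, h.pow_eq_one⟩
  rw [h1.pow_eq_pow_iff_modEq, h.eq_orderOf]

lemma modEq_dvd {j m n : ℕ} (h : m ≡ n [MOD 2 ^ j]) : (2 : ℤ_[2]) ^ j ∣ (m : ℤ_[2]) - n := by
  have h3 : (2 : ℤ) ^ j ∣ (m : ℤ) - n := by
    have := ((Nat.modEq_iff_dvd).1 h.symm)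
    exact_mod_cast this
  have h5 := (PadicInt.pow_p_dvd_int_iff (p := 2) j ((m : ℤ) - n)).2 (by exact_mod_cast h3)
  exact_mod_cast h5

end LFT_

open LFT_ in
theorem lft_proof : Stmt_LFT := by
  intro F Om _ _ _ c hc h2 U t z ht hz z0 z1 t0 hU
  classical
  have h2' : (2 : Om) ≠ 0 := by
    intro h
    apply h2
    have h3 : algebraMap F Om 2 = algebraMap F Om 0 := by
      rw [map_ofNat, map_zero, h]
    exact (algebraMap F Om).injective h3
  have hzp : ∀ j, IsPrimitiveRoot (z j) (2 ^ j) := prim h2' z hz z0 z1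
  have htp : ∀ j, t j ^ 2 ^ j = t 0 := by
    intro j
    induction j with
    | zero => simp
    | succ j ih => rw [pow_succ', pow_mul, ht, ih]
  have htn : ∀ j, t j ≠ 0 := by
    intro j h
    apply t0
    rw [← htp j, h, zero_pow (by positivity)]
  -- the residues
  have hex : ∀ (g : Om ≃ₐ[F] Om) (j : ℕ), ∃ a : ℕ, g ∈ U → g (t j) = z j ^ a * t j := by
    intro g j
    by_cases hg : g ∈ U
    · have h3 : (g (t j) / t j) ^ 2 ^ j = 1 := by
        rw [div_pow, ← map_pow, htp, hU g hg, div_self t0]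
      have : NeZero (2 ^ j) := ⟨by positivity⟩
      obtain ⟨a, -, ha⟩ := (hzp j).eq_pow_of_pow_eq_one h3
      refine ⟨a, fun _ => ?_⟩
      rw [ha, div_mul_cancel₀ _ (htn j)]
    · exact ⟨0, fun h => absurd h hg⟩
  choose a ha using hex
  have hmod : ∀ (j m n : ℕ), z j ^ m * t j = z j ^ n * t j → m ≡ n [MOD 2 ^ j] := by
    intro j m n h
    exact (pow_eq_iff (by positivity) (hzp j) m n).1 (mul_right_cancel₀ (htn j) h)
  have hcomp : ∀ g ∈ U, ∀ j, a g (j + 1) ≡ a g j [MOD 2 ^ j] := by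
    intro g hg j
    apply hmod
    rw [← ha g j hg, ← ht j, map_pow, ha g (j + 1) hg, mul_pow, ← pow_mul, mul_comm (a g (j + 1)) 2,
      pow_mul, hz]
  have hlim : ∀ g : Om ≃ₐ[F] Om, ∃ L : ℤ_[2], g ∈ U → ∀ j, (2 : ℤ_[2]) ^ j ∣ L - a g j := by
    intro g
    by_cases hg : g ∈ U
    · obtain ⟨L, hL⟩ := exists_lim (a g) (hcomp g hg)
      exact ⟨L, fun _ => hL⟩
    · exact ⟨0, fun h => absurd h hg⟩
  choose chi hchi using hlim
  refine ⟨chi, ?_, ?_⟩
  · intro g hg h hh
    apply eq_of_dvd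
    intro j
    have e1 := hchi (g * h) (U.mul_mem hg hh) j
    have e2 := hchi g hg j
    have e3 := hchi h hh j
    obtain ⟨N, hN⟩ : ∃ N : ℕ, N = PadicInt.appr (c g : ℤ_[2]) j := ⟨_, rfl⟩
    have e4 : (2 : ℤ_[2]) ^ j ∣ (c g : ℤ_[2]) - N := by
      have := PadicInt.appr_spec (p := 2) j (c g : ℤ_[2])
      rw [Ideal.mem_span_singleton, ← hN] at this
      exact_mod_cast this
    have e5 : a (g * h) j ≡ N * a h j + a g j [MOD 2 ^ j] := by
      apply hmod
      rw [← ha (g * h) j (U.mul_mem hg hh), AlgEquiv.mul_apply, ha h j hh, map_mul, map_pow,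
        ha g j hg, hc g j (z j) (hzp j).pow_eq_one, ← hN, ← pow_mul, pow_add]
      ring
    have e6 := modEq_dvd e5
    push_cast at e6
    have e7 : (2 : ℤ_[2]) ^ j ∣ (c g : ℤ_[2]) * chi h - N * a h j := by
      have : (c g : ℤ_[2]) * chi h - N * a h j = ((c g : ℤ_[2]) - N) * chi h +
          N * (chi h - a h j) := by ring
      rw [this]
      exact dvd_add (Dvd.dvd.mul_right e4 _) (Dvd.dvd.mul_left e3 _)
    have : chi (g * h) - (chi g + (c g : ℤ_[2]) * chi h) =
        (chi (g * h) - a (g * h) j) + ((a (g * h) j : ℤ_[2]) - (N * a h j + a g j)) -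
          (chi g - a g j) - ((c g : ℤ_[2]) * chi h - N * a h j) := by ring
    rw [this]
    exact dvd_sub (dvd_sub (dvd_add e1 e6) e2) e7
  · intro j
    ext g
    simp only [lev, Set.mem_ofPred_eq]
    constructor
    · rintro ⟨hg, h3⟩
      refine ⟨hg, ?_⟩
      have h4 : (2 : ℤ_[2]) ^ j ∣ ((a g j : ℕ) : ℤ_[2]) := by
        have h5 := dvd_sub h3 (hchi g hg j)
        rwa [sub_sub_cancel] at h5
      have h5 : (2 : ℕ) ^ j ∣ a g j := by
        have h6 := (PadicInt.pow_p_dvd_int_iff (p := 2) j (a g j : ℤ)).1 (by exact_mod_cast h4)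
        exact_mod_cast h6
      rw [ha g j hg, (hzp j).pow_eq_one_iff_dvd _ |>.2 h5, one_mul]
    · rintro ⟨hg, h3⟩
      refine ⟨hg, ?_⟩
      rw [ha g j hg] at h3
      have h4 : z j ^ a g j = 1 := by
        have : z j ^ a g j * t j = 1 * t j := by rw [h3, one_mul]
        exact mul_right_cancel₀ (htn j) this
      have h5 : (2 : ℕ) ^ j ∣ a g j := ((hzp j).pow_eq_one_iff_dvd _).1 h4
      have h6 : (2 : ℤ_[2]) ^ j ∣ ((a g j : ℕ) : ℤ_[2]) := by
        have h7 := (PadicInt.pow_p_dvd_int_iff (p := 2) j (a g j : ℤ)).2 (by exact_mod_cast h5)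
        exact_mod_cast h7
      have h7 := dvd_add (hchi g hg j) h6
      rwa [sub_add_cancel] at h7

end Pool.Agent.ETT
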