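import Pool.Agent.ETT.StmtsZ
import Pool.Agent.EWG.QDE

/-!
Module QDX of the squad ETT: the quadratic extension `K_W / K_U` as a datum `QD`.
-/

set_option autoImplicit false

namespace Pool.Agent.ETT

open Pool.Agent.EWG

namespace QDX_

/-- quadratic extension data from a generator -/
theorem qd_of {F K : Type} [Field F] [Field K] [Algebra F K] (θ : K) (x : F)
    (hsq : θ ^ 2 = algebraMap F K x) (hθF : ∀ a : F, algebraMap F K a ≠ θ)
    (hspan : ∀ z : K, ∃ a b : F, z = algebraMap F K a + algebraMap F K b * θ) :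
    ∃ E : QD F K, (E.x : F) = x := by
  have hli := QDE_.indep (F := F) hθF
  have hsp : ⊤ ≤ Submodule.span F (Set.range ![(1 : K), θ]) := by
    intro z _
    obtain ⟨a, b, rfl⟩ := hspan z
    have : algebraMap F K a + algebraMap F K b * θ = a • (1 : K) + b • θ := by
      rw [Algebra.smul_def, Algebra.smul_def, mul_one]
    rw [this]
    exact Submodule.add_mem _ (Submodule.smul_mem _ _ (Submodule.subset_span ⟨0, rfl⟩))
      (Submodule.smul_mem _ _ (Submodule.subset_span ⟨1, rfl⟩))
  have hfr : Module.finrank F K = 2 := by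
    rw [Module.finrank_eq_card_basis (Module.Basis.mk hli hsp)]
    rfl
  have hθ0 : θ ≠ 0 := by
    intro h0
    exact hθF 0 (by rw [map_zero, h0])
  have hx0 : x ≠ 0 := by
    intro h0
    rw [h0, map_zero] at hsq
    exact hθ0 (pow_eq_zero_iff (two_ne_zero) |>.1 hsq)
  have hxs : ∀ y : F, y ^ 2 ≠ x := by
    intro y hy
    have h3 : (θ - algebraMap F K y) * (θ + algebraMap F K y) = 0 := by
      have : algebraMap F K x = (algebraMap F K y) ^ 2 := by rw [← map_pow, hy]
      linear_combination hsq + this
    rcases mul_eq_zero.1 h3 with h4 | h4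
    · exact hθF y (sub_eq_zero.1 h4).symm
    · apply hθF (-y)
      rw [map_neg]
      linear_combination (-1 : K) * h4
  obtain ⟨t, s, hd, ht, hs⟩ := QDE_.coords hfr hθF
  have hmul : ∀ a b c d : F, (algebraMap F K a + algebraMap F K b * θ) *
      (algebraMap F K c + algebraMap F K d * θ) =
      algebraMap F K (a * c + x * (b * d)) + algebraMap F K (a * d + b * c) * θ := by
    intro a b c d
    simp only [map_add, map_mul]
    linear_combination (algebraMap F K b * algebraMap F K d) * hsq
  let σ₀ : K →ₗ[F] K :=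
    { toFun := fun y => algebraMap F K (t y) - algebraMap F K (s y) * θ
      map_add' := fun y z => by simp only [map_add]; ring
      map_smul' := fun r y => by
        show algebraMap F K (t (r • y)) - algebraMap F K (s (r • y)) * θ =
          r • (algebraMap F K (t y) - algebraMap F K (s y) * θ)
        rw [t.map_smul, s.map_smul, smul_eq_mul, smul_eq_mul, RingHom.map_mul, RingHom.map_mul,
          Algebra.smul_def]
        ring }
  have hσ₀ : ∀ a b : F, σ₀ (algebraMap F K a + algebraMap F K b * θ) =
      algebraMap F K a - algebraMap F K b * θ := by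
    intro a b
    show algebraMap F K (t _) - algebraMap F K (s _) * θ = _
    rw [ht, hs]
  have hσ₀1 : σ₀ 1 = 1 := by
    have := hσ₀ 1 0
    simpa using this
  have hσ₀m : ∀ y z : K, σ₀ (y * z) = σ₀ y * σ₀ z := by
    intro y z
    rw [hd y, hd z, hmul, hσ₀, hσ₀, hσ₀]
    simp only [map_add, map_mul]
    linear_combination (- (algebraMap F K (s y) * algebraMap F K (s z))) * hsq
  let σ₁ : K →ₐ[F] K := AlgHom.ofLinearMap σ₀ hσ₀1 hσ₀m
  have hσ₁ : ∀ a b : F, σ₁ (algebraMap F K a + algebraMap F K b * θ) =
      algebraMap F K a - algebraMap F K b * θ := hσ₀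
  have hσσ : σ₁.comp σ₁ = AlgHom.id F K := by
    ext y
    show σ₁ (σ₁ y) = y
    have e1 : σ₁ y = algebraMap F K (t y) + algebraMap F K (- s y) * θ := by
      conv_lhs => rw [hd y]
      rw [hσ₁, map_neg]
      ring
    rw [e1, hσ₁, map_neg]
    conv_rhs => rw [hd y]
    ring
  let σ : K ≃ₐ[F] K := AlgEquiv.ofAlgHom σ₁ σ₁ hσσ hσσ
  have hσ : ∀ y : K, σ y = σ₁ y := fun y => rfl
  have hnσ : ∀ y : K, algebraMap F K (t y ^ 2 - x * s y ^ 2) = y * σ₁ y := by
    intro y
    have e1 : σ₁ y = algebraMap F K (t y) - algebraMap F K (s y) * θ := by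
      conv_lhs => rw [hd y]
      rw [hσ₁]
    rw [e1]
    conv_rhs => rw [show y * (algebraMap F K (t y) - algebraMap F K (s y) * θ) =
      (algebraMap F K (t y) + algebraMap F K (s y) * θ) *
        (algebraMap F K (t y) - algebraMap F K (s y) * θ) by rw [← hd y]]
    simp only [map_sub, map_mul, map_pow]
    linear_combination ((algebraMap F K (s y)) ^ 2) * hsq
  let N : K →* F :=
    { toFun := fun y => t y ^ 2 - x * s y ^ 2
      map_one' := by
        have h3 := ht 1 0
        have h4 := hs 1 0
        rw [map_one, map_zero, zero_mul, add_zero] at h3 h4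
        rw [h3, h4]
        ring
      map_mul' := fun y z => by
        apply (algebraMap F K).injective
        rw [RingHom.map_mul, hnσ (y * z), hnσ y, hnσ z, map_mul σ₁]
        ring }
  refine ⟨
    { x := Units.mk0 x hx0
      θ := Units.mk0 θ hθ0
      t := t
      s := s
      σ := σ
      nm := Units.map N
      sq := hsq
      ns := ?_
      dec := hd
      t1 := ?_
      tθ := ?_
      s1 := ?_
      sθ := ?_
      σθ := ?_
      nmσ := ?_
      nmt := ?_ }, rfl⟩
  · rintro ⟨y, hy⟩
    apply hxs (y : F)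
    have := congrArg (fun u : Fˣ => (u : F)) hy
    simp only [Units.val_mk0, Units.val_mul] at this
    rw [this, pow_two]
  · intro a
    have := ht a 0
    rwa [map_zero, zero_mul, add_zero] at this
  · intro a
    have := ht 0 a
    rwa [map_zero, zero_add] at this
  · intro a
    have := hs a 0
    rwa [map_zero, zero_mul, add_zero] at this
  · intro a
    have := hs 0 a
    rwa [map_zero, zero_add] at this
  · have := hσ₁ 0 1
    rw [map_zero, map_one, one_mul, zero_add, zero_sub] at this
    exact this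
  · intro u
    exact hnσ (u : K)
  · intro u
    rfl

end QDX_

open QDX_ in
theorem qdx_proof (hKU3 : Stmt_KU3) : Stmt_QDX := by
  intro F Om _ _ _ hS U hU W hW hWU hrel t ht ht2 hWt
  obtain ⟨-, -, hz, -⟩ := hKU3 F Om hS U hU W hW hWU hrel t ht ht2 hWt
  have hle : KU F Om U ≤ KU F Om W := by
    intro y hy
    exact (hz y).2 ⟨y, hy, 0, (KU F Om U).zero_mem, by rw [zero_mul, add_zero]⟩
  have htW : t ∈ KU F Om W :=
    (hz t).2 ⟨0, (KU F Om U).zero_mem, 1, (KU F Om U).one_mem, by rw [one_mul, zero_add]⟩
  refine ⟨(IntermediateField.inclusion hle).toRingHom.toAlgebra, ?_⟩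
  let _ : Algebra (KU F Om U) (KU F Om W) := (IntermediateField.inclusion hle).toRingHom.toAlgebra
  have hmap : ∀ a : KU F Om U, ((algebraMap (KU F Om U) (KU F Om W) a : KU F Om W) : Om) = a :=
    fun a => rfl
  obtain ⟨E, hE⟩ := qd_of (F := KU F Om U) (K := KU F Om W) ⟨t, htW⟩ ⟨t ^ 2, ht2⟩
    (by
      apply Subtype.ext
      rw [hmap]
      rfl)
    (by
      intro a ha
      apply ht
      have h1 := congrArg (fun y : KU F Om W => (y : Om)) ha
      simp only at h1
      rw [hmap] at h1
      rw [← h1]
      exact a.2)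
    (by
      intro z
      obtain ⟨a, ha, b, hb, h⟩ := (hz z).1 z.2
      refine ⟨⟨a, ha⟩, ⟨b, hb⟩, ?_⟩
      apply Subtype.ext
      rw [h]
      rfl)
  refine ⟨E, ?_⟩
  rw [hE]

end Pool.Agent.ETT
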