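import Pool.Agent.ETT.StmtsZ

/-!
# ETT: module QSY (the quaternionic data over the system of the Galois group)
-/

set_option autoImplicit false

namespace Pool.Agent.ETT

open Module Pool.Agent.EWG

namespace QSY_

/-! ## One field -/

section alg

/-- a representative of a square class -/
noncomputable def rp {K : Type} [Field K] (x : VV K) : Kˣ := (vm_surj x).choose

theorem rp_spec {K : Type} [Field K] (x : VV K) : vm (rp x) = x := (vm_surj x).choose_spec

open Classical in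
/-- the symbol -/
noncomputable def qq (hQBL : EWG.Stmt_QBL) (K : Type) [Field K] :
    VV K →ₗ[ZMod 2] VV K →ₗ[ZMod 2] BB K :=
  if h : Good K ∧ I3 K then (hQBL K h.1 h.2).choose else 0

theorem qq_spec (hQBL : EWG.Stmt_QBL) {K : Type} [Field K] (hG : Good K) (h3 : I3 K) :
    (∀ a b : Kˣ, (qq hQBL K (vm a) (vm b) : EWG.W K) = pf a b) ∧
    CommonSlot.IsLinked (qq hQBL K) 0 ∧
    ∀ b : BB K, ∃ (n : ℕ) (v w : Fin n → VV K), b = ∑ i, qq hQBL K (v i) (w i) := by
  unfold qq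
  rw [dif_pos ⟨hG, h3⟩]
  exact (hQBL K hG h3).choose_spec

theorem card_pow (V : Type) [AddCommGroup V] [Module (ZMod 2) V] [Finite V] :
    Nat.card V = 2 ^ finrank (ZMod 2) V := by
  rw [Module.natCard_eq_pow_finrank (K := ZMod 2) (V := V), Nat.card_zmod]

theorem trV (hECN : EWG.Stmt_ECN) (K L : Type) [Field K] [Field L] [Algebra K L] (hG : Good K)
    (hK : Finite (VV K)) (hL : Finite (VV L)) (hB : Finite (BB K)) (E : QD K L)
    (q : VV K →ₗ[ZMod 2] VV K →ₗ[ZMod 2] BB K)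
    (hq : ∀ a b : Kˣ, (q (vm a) (vm b) : EWG.W K) = pf a b) :
    finrank (ZMod 2) (VV L) + finrank (ZMod 2) (LinearMap.range (q (vm E.x))) + 1 =
      2 * finrank (ZMod 2) (VV K) := by
  have h := hECN K L hG hK E
  have h1 : (Set.range fun v : Kˣ => pf E.x v) =
      Subtype.val '' ((LinearMap.range (q (vm E.x)) : Submodule (ZMod 2) (BB K)) :
        Set (BB K)) := by
    ext c
    constructor
    · rintro ⟨v, rfl⟩
      exact ⟨q (vm E.x) (vm v), ⟨vm v, rfl⟩, hq _ _⟩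
    · rintro ⟨b, ⟨v, rfl⟩, rfl⟩
      obtain ⟨a, rfl⟩ := vm_surj v
      exact ⟨a, (hq _ _).symm⟩
  have h2 : Nat.card (Set.range fun v : Kˣ => pf E.x v) =
      Nat.card (LinearMap.range (q (vm E.x))) := by
    rw [h1]
    exact Nat.card_image_of_injective Subtype.val_injective _
  rw [h2, card_pow, card_pow, card_pow, ← pow_mul, ← pow_add, ← pow_succ'] at h
  have h3 := Nat.pow_right_injective (le_refl 2) h
  omega

theorem trB {V B V' B' : Type} [AddCommGroup V] [Module (ZMod 2) V] [AddCommGroup B]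
    [Module (ZMod 2) B] [AddCommGroup V'] [Module (ZMod 2) V'] [AddCommGroup B']
    [Module (ZMod 2) B'] [Finite B] [Finite B'] (D : DSC.QExt V B V' B') :
    finrank (ZMod 2) B' + finrank (ZMod 2) (LinearMap.range (D.q D.x)) =
      2 * finrank (ZMod 2) B := by
  have h1 := LinearMap.finrank_range_add_finrank_ker D.cor
  have h2 := LinearMap.finrank_range_add_finrank_ker D.resB
  have h3 : LinearMap.ker D.cor = LinearMap.range D.resB := by
    ext b
    rw [LinearMap.mem_ker, LinearMap.mem_range]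
    constructor
    · exact D.kercor b
    · rintro ⟨c, rfl⟩
      exact D.corres c
  have h4 : LinearMap.ker D.resB = LinearMap.range (D.q D.x) := by
    ext b
    rw [LinearMap.mem_ker, LinearMap.mem_range]
    exact D.kerresB b
  rw [LinearMap.range_eq_top.2 D.cor_surj, finrank_top, h3] at h1
  rw [h4] at h2
  omega

theorem trB' (hQEX : EWG.Stmt_QEX) (K L : Type) [Field K] [Field L] [Algebra K L] (hG : Good K)
    (h3 : I3 K) (hBK : Finite (BB K)) (hBL : Finite (BB L)) (E : QD K L)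
    (q : VV K →ₗ[ZMod 2] VV K →ₗ[ZMod 2] BB K)
    (hq : ∀ a b : Kˣ, (q (vm a) (vm b) : EWG.W K) = pf a b) :
    finrank (ZMod 2) (BB L) + finrank (ZMod 2) (LinearMap.range (q (vm E.x))) =
      2 * finrank (ZMod 2) (BB K) := by
  obtain ⟨D, hD, -, hDx⟩ := hQEX K L hG h3 E
  have hqD : D.q = q := by
    refine LinearMap.ext fun x => LinearMap.ext fun y => ?_
    obtain ⟨a, rfl⟩ := vm_surj x
    obtain ⟨b, rfl⟩ := vm_surj y
    apply Subtype.ext
    rw [hD, hq]
  have h := trB D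
  rw [hqD, hDx] at h
  exact h

end alg

/-! ## The Galois side -/

section gal

variable {F Om : Type} [Field F] [Field Om] [Algebra F Om]

/-- a square root of the representative of a square class -/
noncomputable def rt (hs : ∀ a : Om, ∃ b : Om, b ^ 2 = a) (U : Subgroup (Om ≃ₐ[F] Om))
    (x : VV (KU F Om U)) : Om :=
  (hs (((rp x : (KU F Om U)ˣ) : KU F Om U) : Om)).choose

theorem rt_spec (hs : ∀ a : Om, ∃ b : Om, b ^ 2 = a) (U : Subgroup (Om ≃ₐ[F] Om))
    (x : VV (KU F Om U)) : rt hs U x ^ 2 = (((rp x : (KU F Om U)ˣ) : KU F Om U) : Om) :=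
  (hs (((rp x : (KU F Om U)ˣ) : KU F Om U) : Om)).choose_spec

/-- the subgroup of the quadratic extension -/
noncomputable def kr (hs : ∀ a : Om, ∃ b : Om, b ^ 2 = a) (U : Subgroup (Om ≃ₐ[F] Om))
    (x : VV (KU F Om U)) : Subgroup (Om ≃ₐ[F] Om) :=
  U ⊓ MulAction.stabilizer (Om ≃ₐ[F] Om) (rt hs U x)

theorem kr_set (hs : ∀ a : Om, ∃ b : Om, b ^ 2 = a) (U : Subgroup (Om ≃ₐ[F] Om))
    (x : VV (KU F Om U)) :
    (kr hs U x : Set (Om ≃ₐ[F] Om)) = {g | g ∈ U ∧ g (rt hs U x) = rt hs U x} := by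
  ext g
  unfold kr
  rw [SetLike.mem_coe, Subgroup.mem_inf, MulAction.mem_stabilizer_iff]
  rfl

theorem rt_sq_mem (hs : ∀ a : Om, ∃ b : Om, b ^ 2 = a) (U : Subgroup (Om ≃ₐ[F] Om))
    (x : VV (KU F Om U)) : rt hs U x ^ 2 ∈ KU F Om U := by
  rw [rt_spec]
  exact (((rp x : (KU F Om U)ˣ) : KU F Om U)).2

theorem rt_ne (hs : ∀ a : Om, ∃ b : Om, b ^ 2 = a) (U : Subgroup (Om ≃ₐ[F] Om))
    (x : VV (KU F Om U)) : rt hs U x ≠ 0 := by
  intro h
  have h1 := rt_spec hs U x
  rw [h] at h1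
  apply (rp x).ne_zero
  apply Subtype.ext
  rw [← h1]
  simp

/-- a unit which is the square of an element of the field -/
theorem isSq_of {U : Subgroup (Om ≃ₐ[F] Om)} (a : (KU F Om U)ˣ) (t : Om) (ht : t ∈ KU F Om U)
    (h : t ^ 2 = ((a : KU F Om U) : Om)) : IsSquare a := by
  have ht0 : (⟨t, ht⟩ : KU F Om U) ≠ 0 := by
    intro h0
    apply a.ne_zero
    apply Subtype.ext
    rw [← h, show t = 0 from congrArg Subtype.val h0]
    simp
  refine ⟨Units.mk0 ⟨t, ht⟩ ht0, ?_⟩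
  apply Units.ext
  apply Subtype.ext
  rw [← h, pow_two]
  rfl

theorem rt_notMem (hs : ∀ a : Om, ∃ b : Om, b ^ 2 = a) (U : Subgroup (Om ≃ₐ[F] Om))
    (x : VV (KU F Om U)) (hx : x ≠ 0) : rt hs U x ∉ KU F Om U := by
  intro h
  apply hx
  rw [← rp_spec x, vm_eq_zero]
  exact isSq_of _ _ h (rt_spec hs U x)

end gal

end QSY_

open QSY_ in
theorem qsy_proof (_hADB : Stmt_ADB) (_hGFX : Stmt_GFX) (hKU1 : Stmt_KU1) (hKU2 : Stmt_KU2)
    (hKU3 : Stmt_KU3) (hQDX : Stmt_QDX) (hGDU : Stmt_GDU) (hQBL : EWG.Stmt_QBL)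
    (hECN : EWG.Stmt_ECN) (hQEX : EWG.Stmt_QEX) : Stmt_QSY := by
  intro F Om _ _ _ hStd hI3 S hS
  have hs := hStd.sq
  have hgd : ∀ U ∈ S.adm, Good (KU F Om U) ∧ I3 (KU F Om U) ∧
      Finite (VV (KU F Om U)) ∧ Finite (BB (KU F Om U)) := by
    intro U hU
    rw [hS] at hU
    exact hGDU F Om hStd hI3 U hU
  have hspec : ∀ U ∈ S.adm, ∀ x : VV (KU F Om U), x ≠ 0 →
      kr hs U x ∈ S.adm ∧ kr hs U x ≤ U ∧ (kr hs U x).relIndex U = 2 := by
    intro U hU x hx
    rw [hS] at hU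
    obtain ⟨W, hW, hWU, hW2, hWs⟩ := hKU1 F Om hStd U hU (rt hs U x) (rt_notMem hs U x hx)
      (rt_sq_mem hs U x)
    have h : kr hs U x = W := by
      apply SetLike.coe_injective
      rw [kr_set, hWs]
    rw [h, hS]
    exact ⟨hW, hWU, hW2⟩
  -- the quadratic extension
  have hext : ∀ U ∈ S.adm, ∀ x : VV (KU F Om U), x ≠ 0 →
      ∃ (_ : Algebra (KU F Om U) (KU F Om (kr hs U x)))
        (E : QD (KU F Om U) (KU F Om (kr hs U x))), vm E.x = x := by
    intro U hU x hx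
    obtain ⟨h1, h2, h3⟩ := hspec U hU x hx
    have hU' := hU
    rw [hS] at hU' h1
    obtain ⟨hA, E, hE⟩ := hQDX F Om hStd U hU' (kr hs U x) h1 h2 h3 (rt hs U x)
      (rt_notMem hs U x hx) (rt_sq_mem hs U x) (kr_set hs U x)
    refine ⟨hA, E, ?_⟩
    have h4 : E.x = rp x := by
      apply Units.ext
      apply Subtype.ext
      rw [hE, rt_spec]
    rw [h4, rp_spec]
  refine ⟨{
    V := fun U => VV (KU F Om U)
    B := fun U => BB (KU F Om U)
    vA := fun U => inferInstance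
    vM := fun U => inferInstance
    bA := fun U => inferInstance
    bM := fun U => inferInstance
    q := fun U => qq hQBL (KU F Om U)
    vF := fun U hU => (hgd U hU).2.2.1
    bF := fun U hU => (hgd U hU).2.2.2
    symm := fun U hU x y => (qq_spec hQBL (hgd U hU).1 (hgd U hU).2.1).2.1.symm x y
    span := ?_
    ker := fun U => kr hs U
    ker_spec := hspec
    ker_surj := ?_
    ker_inj := ?_
    triV := ?_
    triB := ?_ }, ?_⟩
  · intro U hU
    rw [eq_top_iff]
    intro b _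
    obtain ⟨n, v, w, rfl⟩ := (qq_spec hQBL (hgd U hU).1 (hgd U hU).2.1).2.2 b
    exact Submodule.sum_mem _ fun i _ => Submodule.subset_span ⟨v i, w i, rfl⟩
  · intro U hU W hW hWU hW2
    rw [hS] at hU hW
    obtain ⟨t', ht1, ht2, hWs⟩ := hKU2 F Om hStd U hU W hW hWU hW2
    have ht0 : t' ≠ 0 := by
      rintro rfl
      exact ht1 (KU F Om U).zero_mem
    have ha0 : (⟨t' ^ 2, ht2⟩ : KU F Om U) ≠ 0 := by
      intro h
      exact pow_ne_zero 2 ht0 (congrArg Subtype.val h)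
    set a : (KU F Om U)ˣ := Units.mk0 ⟨t' ^ 2, ht2⟩ ha0 with ha
    have haval : ((a : KU F Om U) : Om) = t' ^ 2 := rfl
    have hx0 : vm a ≠ 0 := by
      intro h
      rw [vm_eq_zero] at h
      obtain ⟨c, hc⟩ := h
      have h1 : t' ^ 2 = ((c : KU F Om U) : Om) ^ 2 := by
        rw [← haval, hc, pow_two]
        rfl
      rcases sq_eq_sq_iff_eq_or_eq_neg.1 h1 with h2 | h2
      · exact ht1 (h2 ▸ (c : KU F Om U).2)
      · exact ht1 (h2 ▸ (KU F Om U).neg_mem (c : KU F Om U).2)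
    refine ⟨vm a, hx0, ?_⟩
    have h1 := rp_spec (vm a)
    rw [vm_eq_iff] at h1
    obtain ⟨d, hd⟩ := h1
    have h2 : (rt hs U (vm a) * t') ^ 2 = ((d : KU F Om U) : Om) ^ 2 := by
      rw [mul_pow, rt_spec, ← haval]
      have h3 := congrArg (fun z : (KU F Om U)ˣ => ((z : KU F Om U) : Om)) hd
      simp only [Units.val_mul, MulMemClass.coe_mul] at h3
      rw [h3, pow_two]
    have h4 : ∃ c ∈ KU F Om U, c ≠ 0 ∧ rt hs U (vm a) = c * t' := by
      have hinv : (t' ^ 2)⁻¹ ∈ KU F Om U := (KU F Om U).inv_mem ht2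
      rcases sq_eq_sq_iff_eq_or_eq_neg.1 h2 with h5 | h5
      · refine ⟨((d : KU F Om U) : Om) * (t' ^ 2)⁻¹,
          (KU F Om U).mul_mem (d : KU F Om U).2 hinv, ?_, ?_⟩
        · apply mul_ne_zero
          · intro h
            apply d.ne_zero
            exact Subtype.ext h
          · exact inv_ne_zero (pow_ne_zero 2 ht0)
        · rw [← h5]
          field_simp
      · refine ⟨-((d : KU F Om U) : Om) * (t' ^ 2)⁻¹,
          (KU F Om U).mul_mem ((KU F Om U).neg_mem (d : KU F Om U).2) hinv, ?_, ?_⟩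
        · apply mul_ne_zero
          · intro h
            apply d.ne_zero
            exact Subtype.ext (neg_eq_zero.1 h)
          · exact inv_ne_zero (pow_ne_zero 2 ht0)
        · rw [← h5]
          field_simp
    have h6 := ((hKU3 F Om hStd U hU W hW hWU hW2 t' ht1 ht2 hWs).2.2.2 (rt hs U (vm a))
      (rt_ne hs U _) (rt_sq_mem hs U _)).2 h4
    apply SetLike.coe_injective
    rw [kr_set, h6]
  · intro U hU x y hx hy hxy
    obtain ⟨h1, h2, h3⟩ := hspec U hU x hx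
    rw [hS] at hU h1
    have hset : (kr hs U x : Set (Om ≃ₐ[F] Om)) = {g | g ∈ U ∧ g (rt hs U y) = rt hs U y} := by
      rw [show kr hs U x = kr hs U y from hxy, kr_set]
    obtain ⟨c, hc, hc0, hct⟩ := ((hKU3 F Om hStd U hU (kr hs U x) h1 h2 h3 (rt hs U x)
      (rt_notMem hs U x hx) (rt_sq_mem hs U x) (kr_set hs U x)).2.2.2 (rt hs U y)
      (rt_ne hs U _) (rt_sq_mem hs U _)).1 hset
    have h4 : IsSquare (rp x * rp y) := by
      refine isSq_of _ (c * rt hs U x ^ 2) ((KU F Om U).mul_mem hc (rt_sq_mem hs U x)) ?_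
      rw [Units.val_mul, MulMemClass.coe_mul, ← rt_spec hs U x, ← rt_spec hs U y, hct]
      ring
    rw [← rp_spec x, ← rp_spec y, vm_eq_iff]
    exact h4
  · intro U hU x hx
    obtain ⟨hA, E, hE⟩ := hext U hU x hx
    have h1 := (hspec U hU x hx).1
    have h2 := trV hECN (KU F Om U) (KU F Om (kr hs U x)) (hgd U hU).1 (hgd U hU).2.2.1
      (hgd _ h1).2.2.1 (hgd U hU).2.2.2 E (qq hQBL (KU F Om U))
      (qq_spec hQBL (hgd U hU).1 (hgd U hU).2.1).1
    rw [hE] at h2
    exact h2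
  · intro U hU x hx
    obtain ⟨hA, E, hE⟩ := hext U hU x hx
    have h1 := (hspec U hU x hx).1
    have h2 := trB' hQEX (KU F Om U) (KU F Om (kr hs U x)) (hgd U hU).1 (hgd U hU).2.1
      (hgd U hU).2.2.2 (hgd _ h1).2.2.2 E (qq hQBL (KU F Om U))
      (qq_spec hQBL (hgd U hU).1 (hgd U hU).2.1).1
    rw [hE] at h2
    exact h2
  · intro U hU x hsurj
    refine ⟨rp x, fun c hc => ?_⟩
    obtain ⟨y, hy⟩ := hsurj (⟨c, hc⟩ : BB (KU F Om U))
    refine ⟨rp y, ?_⟩
    have h1 := (qq_spec hQBL (hgd U hU).1 (hgd U hU).2.1).1 (rp x) (rp y)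
    rw [rp_spec, rp_spec] at h1
    rw [← h1]
    exact congrArg Subtype.val hy

end Pool.Agent.ETT
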