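import Pool.Agent.ETT.StmtsZ

/-!
# ETT, module STD: the standing hypotheses in the separable closure (MP_d26ff6_al)
-/

set_option autoImplicit false

namespace Pool.Agent.ETT

open Module Pool.Agent.EWG

theorem std_proof (hFSV : Stmt_FSV) : Stmt_STD := by
  intro F _ hG hV
  have h2 : (2 : SeparableClosure F) ≠ 0 := by
    intro h
    apply hG.two
    apply (algebraMap F (SeparableClosure F)).injective
    rw [map_zero, map_ofNat]
    exact h
  haveI : NeZero ((2 : ℕ) : SeparableClosure F) := ⟨by rw [Nat.cast_ofNat]; exact h2⟩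
  refine ⟨inferInstance, hG.two, ?_, hG.neg, (hFSV F (SeparableClosure F)).1 hV⟩
  intro a
  exact IsSepClosed.exists_pow_nat_eq a 2

end Pool.Agent.ETT
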