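import Pool.Agent.ETT.Stmts

/-!
# ETT, module SYS: the system of admissible subgroups of the Galois group
-/

set_option autoImplicit false

namespace Pool.Agent.ETT

open Module

namespace SYS_

lemma exists_rts {Om : Type} [Field Om] (hsq : ∀ a : Om, ∃ b : Om, b ^ 2 = a) (a b : Om)
    (hab : b ^ 2 = a) : ∃ t : ℕ → Om, t 0 = a ∧ t 1 = b ∧ Rts t := by
  choose r hr using hsq
  let u : ℕ → Om := fun n => Nat.rec b (fun _ x => r x) n
  have hu0 : u 0 = b := rfl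
  have hus : ∀ n, u (n + 1) = r (u n) := fun _ => rfl
  refine ⟨fun n => Nat.casesOn n a u, rfl, hu0, ?_⟩
  intro j
  cases j with
  | zero => exact hab
  | succ n => exact hr (u n)

lemma prim {Om : Type} [Field Om] (h2 : (2 : Om) ≠ 0) (z : ℕ → Om) (hz : Rts z)
    (h0 : z 0 = 1) (h1 : z 1 = -1) (j : ℕ) : IsPrimitiveRoot (z j) (2 ^ j) := by
  have key : ∀ n m : ℕ, z (m + n) ^ (2 ^ n) = z m := by
    intro n
    induction n with
    | zero => intro m; simp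
    | succ n ih =>
      intro m
      have h : z (m + (n + 1)) ^ 2 = z (m + n) := hz (m + n)
      rw [pow_succ', pow_mul, h]
      exact ih m
  cases j with
  | zero =>
    rw [h0, pow_zero]
    exact IsPrimitiveRoot.one
  | succ n =>
    have hne : ¬ z (n + 1) ^ (2 ^ n) = 1 := by
      have h := key n 1
      rw [add_comm 1 n] at h
      rw [h, h1]
      intro hc
      apply h2
      have : (1 : Om) + 1 = 0 := by
        nth_rewrite 1 [← hc]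
        ring
      rw [← this]
      norm_num
    have he : z (n + 1) ^ (2 ^ (n + 1)) = 1 := by
      have h := key (n + 1) 0
      rw [zero_add] at h
      rw [h, h0]
    have ho : orderOf (z (n + 1)) = 2 ^ (n + 1) := orderOf_eq_prime_pow hne he
    rw [← ho]
    exact IsPrimitiveRoot.orderOf _

lemma fix_iff {F Om : Type} [Field F] [Field Om] [Algebra F Om]
    (c : (Om ≃ₐ[F] Om) →* ℤ_[2]ˣ) (hc : IsCyc F Om c) (z : Om) (j : ℕ)
    (hz : IsPrimitiveRoot z (2 ^ j)) (g : Om ≃ₐ[F] Om) :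
    g z = z ↔ (2 : ℤ_[2]) ^ j ∣ (c g : ℤ_[2]) - 1 := by
  have h1 : g z = z ^ (PadicInt.appr (c g : ℤ_[2]) j) := hc g j z hz.pow_eq_one
  have hz0 : z ≠ 0 := hz.ne_zero (by positivity)
  have h2 : g z = z ↔ z ^ (((PadicInt.appr (c g : ℤ_[2]) j : ℕ) : ℤ) - 1) = 1 := by
    rw [h1, zpow_sub₀ hz0, zpow_natCast, zpow_one, div_eq_one_iff_eq hz0]
  rw [h2, hz.zpow_eq_one_iff_dvd]
  have h3 : (2 : ℤ_[2]) ^ j ∣ (c g : ℤ_[2]) - (PadicInt.appr (c g : ℤ_[2]) j : ℕ) := by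
    have h := PadicInt.appr_spec j (c g : ℤ_[2])
    rw [Ideal.mem_span_singleton] at h
    simpa using h
  have h4 : (2 : ℤ_[2]) ^ j ∣ (c g : ℤ_[2]) - 1 ↔
      (2 : ℤ_[2]) ^ j ∣ (((((PadicInt.appr (c g : ℤ_[2]) j : ℕ) : ℤ) - 1 : ℤ)) : ℤ_[2]) := by
    have e : (c g : ℤ_[2]) - 1 = ((c g : ℤ_[2]) - (PadicInt.appr (c g : ℤ_[2]) j : ℕ)) +
        (((((PadicInt.appr (c g : ℤ_[2]) j : ℕ) : ℤ) - 1 : ℤ)) : ℤ_[2]) := by
      push_cast
      ring
    rw [e]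
    exact dvd_add_right h3
  rw [h4]
  have h5 := PadicInt.pow_p_dvd_int_iff (p := 2) j
    (((PadicInt.appr (c g : ℤ_[2]) j : ℕ) : ℤ) - 1)
  have h6 : ((2 : ℕ) : ℤ_[2]) = 2 := by norm_num
  rw [h6] at h5
  rw [h5]
  push_cast
  exact Iff.rfl

lemma fg {F Om : Type} [Field F] [Field Om] [Algebra F Om] (hKU2 : Stmt_KU2) (hKU3 : Stmt_KU3)
    (hVFU : Stmt_VFU) (hS : Std F Om) (U : Subgroup (Om ≃ₐ[F] Om))
    (hU : U ∈ admT (Om ≃ₐ[F] Om)) :
    {W : Subgroup (Om ≃ₐ[F] Om) | W ∈ admT (Om ≃ₐ[F] Om) ∧ W ≤ U ∧ W.relIndex U = 2}.Finite := by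
  obtain ⟨s, -, hs⟩ := hVFU F Om hS U hU
  have hex : ∀ W : Subgroup (Om ≃ₐ[F] Om),
      (W ∈ admT (Om ≃ₐ[F] Om) ∧ W ≤ U ∧ W.relIndex U = 2) →
      ∃ b ∈ s, ∃ t : Om, t ∉ KU F Om U ∧ t ^ 2 ∈ KU F Om U ∧
        (W : Set (Om ≃ₐ[F] Om)) = {g | g ∈ U ∧ g t = t} ∧
        ∃ c ∈ KU F Om U, c ≠ 0 ∧ t ^ 2 = b * c ^ 2 := by
    rintro W ⟨hW, hle, hi⟩
    obtain ⟨t, ht, ht2, hWt⟩ := hKU2 F Om hS U hU W hW hle hi
    have ht0 : t ≠ 0 := fun h => ht (h ▸ (KU F Om U).zero_mem)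
    obtain ⟨b, hb, c, hc, hc0, he⟩ := hs (t ^ 2) ht2 (pow_ne_zero 2 ht0)
    exact ⟨b, hb, t, ht, ht2, hWt, c, hc, hc0, he⟩
  choose! f hf hP using hex
  refine Set.Finite.of_injOn (f := f) (t := (s : Set Om)) ?_ ?_ s.finite_toSet
  · intro W hW
    exact hf W hW
  · intro W hW W' hW' hfe
    obtain ⟨t, ht, ht2, hWt, c, hc, hc0, he⟩ := hP W hW
    obtain ⟨t', ht', ht2', hWt', c', hc', hc0', he'⟩ := hP W' hW'
    have ht0 : t ≠ 0 := fun h => ht (h ▸ (KU F Om U).zero_mem)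
    have ht0' : t' ≠ 0 := fun h => ht' (h ▸ (KU F Om U).zero_mem)
    have hlast := (hKU3 F Om hS U hU W hW.1 hW.2.1 hW.2.2 t ht ht2 hWt).2.2.2 t' ht0' ht2'
    have hsq : (t' * c) ^ 2 = (t * c') ^ 2 := by
      rw [mul_pow, mul_pow, he, he', hfe]
      ring
    have hWW : (W : Set (Om ≃ₐ[F] Om)) = {g | g ∈ U ∧ g t' = t'} := by
      rw [hlast]
      rcases sq_eq_sq_iff_eq_or_eq_neg.mp hsq with h | h
      · refine ⟨c' / c, (KU F Om U).div_mem hc' hc, div_ne_zero hc0' hc0, ?_⟩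
        field_simp
        rw [h]
        ring
      · refine ⟨-(c' / c), (KU F Om U).neg_mem ((KU F Om U).div_mem hc' hc),
          neg_ne_zero.mpr (div_ne_zero hc0' hc0), ?_⟩
        field_simp
        rw [h]
        ring
    apply SetLike.coe_injective
    rw [hWW, hWt']

end SYS_

theorem sys_proof (hADB : Stmt_ADB) (hKU2 : Stmt_KU2) (hKU3 : Stmt_KU3) (hVFU : Stmt_VFU)
    (hCYC : Stmt_CYC) (hLFT : Stmt_LFT) (hLVA : Stmt_LVA) : Stmt_SYS := by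
  intro F Om _ _ _ hS
  obtain ⟨h1, h2, h3, h4, h5, -⟩ := hADB (Om ≃ₐ[F] Om)
  obtain ⟨c, hc, hc4, hcmu⟩ := hCYC F Om hS
  obtain ⟨z, hz0, hz1, hz⟩ := SYS_.exists_rts hS.sq (1 : Om) (-1) (by norm_num)
  have htwo : (2 : Om) ≠ 0 := by
    have h := hS.two
    intro h0
    apply h
    apply (algebraMap F Om).injective
    rw [map_zero, map_ofNat]
    exact h0
  refine ⟨{
    adm := admT (Om ≃ₐ[F] Om)
    top_mem := h1
    inf_mem := h2
    up_mem := h3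
    conj_mem := h4
    core := h5
    fg := fun U hU => SYS_.fg hKU2 hKU3 hVFU hS U hU
    cyc := c
    cyc4 := hc4
    cycadm := ?_
    lift := ?_ }, rfl, hcmu⟩
  · intro j
    obtain ⟨W, hW, hWe⟩ := hLVA F Om hS ⊤ h1 z hz (by
      intro g _
      rw [hz0, map_one]) j
    refine ⟨W, hW, ?_⟩
    rw [hWe]
    ext g
    have h := SYS_.fix_iff c hc (z j) j (SYS_.prim htwo z hz hz0 hz1 j) g
    constructor
    · rintro ⟨_, hg⟩
      exact h.mp hg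
    · intro hg
      exact ⟨Subgroup.mem_top g, h.mpr hg⟩
  · intro U hU W hW hle hi
    obtain ⟨t, ht, ht2, hWt⟩ := hKU2 F Om hS U hU W hW hle hi
    have ht0 : t ≠ 0 := fun h => ht (h ▸ (KU F Om U).zero_mem)
    obtain ⟨tt, htt0, htt1, htt⟩ := SYS_.exists_rts hS.sq (t ^ 2) t rfl
    have hfix : ∀ g ∈ U, g (tt 0) = tt 0 := by
      rw [htt0]
      exact fun g hg => (IntermediateField.mem_fixedField_iff U (t ^ 2)).mp ht2 g hg
    obtain ⟨chi, hchi, hlev⟩ := hLFT F Om c hc hS.two U tt z htt hz hz0 hz1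
      (by rw [htt0]; exact pow_ne_zero 2 ht0) hfix
    refine ⟨chi, hchi, ?_, ?_⟩
    · intro j
      obtain ⟨W', hW', hWe'⟩ := hLVA F Om hS U hU tt htt hfix j
      exact ⟨W', hW', by rw [hWe', hlev j]⟩
    · rw [hlev 1, htt1, hWt]

end Pool.Agent.ETT
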