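import Pool.Agent.ETT.Stmts

/-! Existence of a total element along the generic tower. -/

set_option autoImplicit false

namespace Pool.Agent.ETT

open Module

namespace TOT_

theorem two_dvd (v : ℤ_[2]) : (2 : ℤ_[2]) ∣ v ↔ PadicInt.toZMod v = 0 := by
  rw [← RingHom.mem_ker, PadicInt.ker_toZMod, PadicInt.maximalIdeal_eq_span_p,
    Ideal.mem_span_singleton]
  norm_num

theorem two_ne : (2 : ℤ_[2]) ≠ 0 := two_ne_zero

theorem unit_mod (u : ℤ_[2]) (h : (4 : ℤ_[2]) ∣ u - 1) : PadicInt.toZMod u = 1 := by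
  obtain ⟨t, ht⟩ := h
  have h1 : u = 1 + 2 * (2 * t) := by linear_combination ht
  have h2 : (2 : ZMod 2) = 0 := rfl
  rw [h1, map_add, map_mul, map_ofNat, h2, zero_mul, add_zero, map_one]

theorem zm (a : ZMod 2) : a = 0 ∨ a = 1 := by
  revert a; decide

/-- an element of exact level `j` -/
theorem exlev {G : Type} [Group G] (cyc : G →* ℤ_[2]ˣ) (h4 : ∀ g, (4 : ℤ_[2]) ∣ (cyc g : ℤ_[2]) - 1)
    (U : Subgroup G) (chi : G → ℤ_[2]) (hc : IsCoc cyc U chi) (hg : ∃ g ∈ U, ¬ (2 : ℤ_[2]) ∣ chi g)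
    (j : ℕ) : ∃ g ∈ U, ∃ u : ℤ_[2], chi g = 2 ^ j * u ∧ PadicInt.toZMod u = 1 := by
  induction j with
  | zero =>
    obtain ⟨g, hgU, hg⟩ := hg
    refine ⟨g, hgU, chi g, by rw [pow_zero, one_mul], ?_⟩
    rw [two_dvd] at hg
    rcases zm (PadicInt.toZMod (chi g)) with h | h
    · exact absurd h hg
    · exact h
  | succ j ih =>
    obtain ⟨g, hgU, u, hu, hu1⟩ := ih
    obtain ⟨t, ht⟩ := h4 g
    refine ⟨g * g, U.mul_mem hgU hgU, (1 + 2 * t) * u, ?_, ?_⟩
    · rw [hc g hgU g hgU, hu]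
      have h1 : (cyc g : ℤ_[2]) = 1 + 4 * t := by linear_combination ht
      rw [h1]; ring
    · have h2 : (2 : ZMod 2) = 0 := rfl
      rw [map_mul, map_add, map_mul, map_one, map_ofNat, h2, zero_mul, add_zero, one_mul, hu1]

/-- consecutive levels have index 2 -/
theorem relidx {G : Type} [Group G] (cyc : G →* ℤ_[2]ˣ)
    (h4 : ∀ g, (4 : ℤ_[2]) ∣ (cyc g : ℤ_[2]) - 1)
    (U : Subgroup G) (chi : G → ℤ_[2]) (hc : IsCoc cyc U chi) (hg : ∃ g ∈ U, ¬ (2 : ℤ_[2]) ∣ chi g)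
    (j : ℕ) (K H : Subgroup G) (hK : (K : Set G) = lev U chi j)
    (hH : (H : Set G) = lev U chi (j + 1)) : H ≤ K ∧ H.relIndex K = 2 := by
  have mK : ∀ g, g ∈ K ↔ g ∈ U ∧ (2 : ℤ_[2]) ^ j ∣ chi g := by
    intro g; rw [← SetLike.mem_coe, hK]; rfl
  have mH : ∀ g, g ∈ H ↔ g ∈ U ∧ (2 : ℤ_[2]) ^ (j + 1) ∣ chi g := by
    intro g; rw [← SetLike.mem_coe, hH]; rfl
  have h20 : (2 : ℤ_[2]) ^ j ≠ 0 := pow_ne_zero _ two_ne
  have red : ∀ v : ℤ_[2], (2 : ℤ_[2]) ^ (j + 1) ∣ 2 ^ j * v ↔ PadicInt.toZMod v = 0 := by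
    intro v
    rw [pow_succ, mul_dvd_mul_iff_left h20, two_dvd]
  refine ⟨?_, ?_⟩
  · intro g hgH
    rw [mH] at hgH
    rw [mK]
    exact ⟨hgH.1, (pow_dvd_pow _ (Nat.le_succ j)).trans hgH.2⟩
  · obtain ⟨a, haU, u, hu, hu1⟩ := exlev cyc h4 U chi hc hg j
    rw [Subgroup.relIndex_eq_two_iff]
    refine ⟨a, (mK a).2 ⟨haU, Dvd.intro _ hu.symm⟩, ?_⟩
    intro b hb
    obtain ⟨hbU, v, hv⟩ := (mK b).1 hb
    have h1 : b ∈ H ↔ PadicInt.toZMod v = 0 := by
      rw [mH, hv, red]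
      exact ⟨fun h => h.2, fun h => ⟨hbU, h⟩⟩
    have h2 : b * a ∈ H ↔ PadicInt.toZMod v + 1 = 0 := by
      have h3 : chi (b * a) = 2 ^ j * (v + (cyc b : ℤ_[2]) * u) := by
        rw [hc b hbU a haU, hv, hu]; ring
      rw [mH, h3, red, map_add, map_mul, unit_mod _ (h4 b), hu1, one_mul]
      exact ⟨fun h => h.2, fun h => ⟨U.mul_mem hbU haU, h⟩⟩
    rw [h1, h2]
    rcases zm (PadicInt.toZMod v) with h | h
    · rw [h]
      right
      exact ⟨rfl, by decide⟩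
    · rw [h]
      left
      exact ⟨by decide, by decide⟩

section
variable {G : Type} [Group G] {S : Sys G} (Q : QSys S)

theorem count (U : Subgroup G) (hU : U ∈ S.adm) :
    Nat.card {W : Subgroup G // W ∈ S.adm ∧ W ≤ U ∧ W.relIndex U = 2} + 1 =
      2 ^ finrank (ZMod 2) (Q.V U) := by
  have hf : Finite (Q.V U) := Q.vF U hU
  have h1 : Nat.card (Q.V U) = 2 ^ finrank (ZMod 2) (Q.V U) := by
    rw [Module.natCard_eq_pow_finrank (K := ZMod 2), Nat.card_zmod]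
  have h2 : Nat.card {W : Subgroup G // W ∈ S.adm ∧ W ≤ U ∧ W.relIndex U = 2} =
      Nat.card {x : Q.V U // x ≠ 0} := by
    refine (Nat.card_congr (Equiv.ofBijective
      (fun x : {x : Q.V U // x ≠ 0} => (⟨Q.ker U x.1, Q.ker_spec U hU x.1 x.2⟩ :
        {W : Subgroup G // W ∈ S.adm ∧ W ≤ U ∧ W.relIndex U = 2})) ⟨?_, ?_⟩)).symm
    · intro x y hxy
      have h3 : Q.ker U x.1 = Q.ker U y.1 := congrArg Subtype.val hxy
      exact Subtype.ext (Q.ker_inj U hU x.1 y.1 x.2 y.2 h3)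
    · rintro ⟨W, hW, hWU, hW2⟩
      obtain ⟨x, hx, hxW⟩ := Q.ker_surj U hU W hW hWU hW2
      exact ⟨⟨x, hx⟩, Subtype.ext hxW⟩
  have h4 : Nat.card {x : Q.V U // x ≠ 0} + 1 = Nat.card (Q.V U) := by
    classical
    have h5 : Nat.card (Q.V U) = Nat.card (Option {x : Q.V U // x ≠ 0}) :=
      Nat.card_congr (Equiv.optionSubtypeNe (0 : Q.V U)).symm
    rw [h5, Finite.card_option]
  rw [h2, h4, h1]

end

end TOT_

theorem tot_proof (hEXP : Stmt_EXP) (hBRK : Stmt_BRK) : Stmt_TOT := by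
  intro G _ S hI Q
  by_cases htop : ∃ W ∈ S.adm, W ≠ ⊤
  swap
  · push Not at htop
    refine ⟨⊤, S.top_mem, 0, ?_⟩
    have h0 : ∀ x : Q.V ⊤, x = 0 := by
      intro x
      by_contra hx
      obtain ⟨h1, -, h3⟩ := Q.ker_spec ⊤ S.top_mem x hx
      rw [htop _ h1, Subgroup.relIndex_self] at h3
      omega
    have hs := Q.span ⊤ S.top_mem
    have hb : ∀ b : Q.B ⊤, b = 0 := by
      have h1 : Submodule.span (ZMod 2) {b | ∃ x y, Q.q ⊤ x y = b} ≤ ⊥ := by
        rw [Submodule.span_le]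
        rintro b ⟨x, y, rfl⟩
        rw [h0 x, map_zero, LinearMap.zero_apply]
        exact Submodule.zero_mem _
      intro b
      have h2 : b ∈ (⊤ : Submodule (ZMod 2) (Q.B ⊤)) := Submodule.mem_top
      rw [← hs] at h2
      exact (Submodule.mem_bot _).1 (h1 h2)
    intro b
    exact ⟨0, by rw [hb b, map_zero]⟩
  · obtain ⟨R, _, _, rho, hA, hE⟩ := hEXP G S
    obtain ⟨beta, hlow, U, hU, chi, hc, hg, C, hW⟩ := hI R rho hA htop
    choose W hWa hWs hWb using hW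
    have hbb : ∀ U ∈ S.adm, bb rho U + 1 = finrank (ZMod 2) (Q.V U) + U.index :=
      fun U hU => hE U hU _ (TOT_.count Q U hU)
    have hstep : ∀ j, W (j + 1) ≤ W j ∧ (W (j + 1)).relIndex (W j) = 2 := fun j =>
      TOT_.relidx S.cyc S.cyc4 U chi hc hg j (W j) (W (j + 1)) (hWs j) (hWs (j + 1))
    have hrk : ∀ (j : ℕ) (x : Q.V (W j)),
        finrank (ZMod 2) (LinearMap.range (Q.q (W j) x)) ≤ 2 * C := by
      intro j x
      by_cases hx : x = 0
      · rw [hx, map_zero, LinearMap.range_zero, finrank_bot]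
        exact Nat.zero_le _
      · obtain ⟨k1, k2, k3⟩ := Q.ker_spec (W j) (hWa j) x hx
        have hidx : (Q.ker (W j) x).index = 2 * (W j).index := by
          rw [← Subgroup.relIndex_mul_index k2, k3]
        have e1 := hbb _ k1
        have e2 := hbb _ (hWa j)
        have e3 := hlow _ k1
        have e4 := hWb j
        have e5 := Q.triV (W j) (hWa j) x hx
        rw [hidx] at e1 e3
        have e6 : beta * (2 * (W j).index) = 2 * (beta * (W j).index) := by ring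
        rw [e6] at e3
        omega
    have hdim : ∀ j, finrank (ZMod 2) (Q.B (W j)) ≤ 2 * (2 * C) ^ 2 + 2 * (2 * C) := by
      intro j
      have f1 : Finite (Q.V (W j)) := Q.vF _ (hWa j)
      have f2 : Finite (Q.B (W j)) := Q.bF _ (hWa j)
      exact hBRK (Q.V (W j)) (Q.B (W j)) (Q.q (W j)) (2 * C) (Q.symm _ (hWa j))
        (Q.span _ (hWa j)) (hrk j)
    by_contra hno
    push Not at hno
    have hgrow : ∀ j, finrank (ZMod 2) (Q.B (W j)) + 1 ≤ finrank (ZMod 2) (Q.B (W (j + 1))) := by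
      intro j
      obtain ⟨x, hx, hker⟩ := Q.ker_surj (W j) (hWa j) (W (j + 1)) (hWa (j + 1)) (hstep j).1
        (hstep j).2
      have t1 := Q.triB (W j) (hWa j) x hx
      rw [hker] at t1
      have f2 : Finite (Q.B (W j)) := Q.bF _ (hWa j)
      have t2 : finrank (ZMod 2) (LinearMap.range (Q.q (W j) x)) ≤
          finrank (ZMod 2) (Q.B (W j)) := Submodule.finrank_le _
      have t3 : finrank (ZMod 2) (LinearMap.range (Q.q (W j) x)) ≠
          finrank (ZMod 2) (Q.B (W j)) := by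
        intro h
        apply hno (W j) (hWa j) x
        exact LinearMap.range_eq_top.1 (Submodule.eq_top_of_finrank_eq h)
      omega
    have hge : ∀ j, j ≤ finrank (ZMod 2) (Q.B (W j)) := by
      intro j
      induction j with
      | zero => exact Nat.zero_le _
      | succ j ih => have := hgrow j; omega
    have h1 := hge (2 * (2 * C) ^ 2 + 2 * (2 * C) + 1)
    have h2 := hdim (2 * (2 * C) ^ 2 + 2 * (2 * C) + 1)
    omega

end Pool.Agent.ETT
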