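import Pool.Agent.ETT.Stmts

/-!
Module UP2: a subgroup of 2-power type has an overgroup of index 2.
-/

set_option autoImplicit false

namespace Pool.Agent.ETT

theorem up2_proof : Stmt_UP2 := by
  intro G _ N U k hN hNU hidx hU
  haveI : Fact (Nat.Prime 2) := ⟨Nat.prime_two⟩
  haveI : N.FiniteIndex := ⟨by rw [hidx]; positivity⟩
  haveI : Finite (G ⧸ N) := inferInstance
  set π := QuotientGroup.mk' N with hπ
  have hπs : Function.Surjective π := QuotientGroup.mk'_surjective N
  have hker : π.ker = N := QuotientGroup.ker_mk' N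
  set V : Subgroup (G ⧸ N) := U.map π with hV
  have hVU : V.comap π = U := by
    rw [hV, Subgroup.comap_map_eq, hker]
    exact sup_eq_left.2 hNU
  have hcard : Nat.card (G ⧸ N) = 2 ^ k := by
    rw [← hidx]
    rfl
  -- the order of `V`
  obtain ⟨n, hn, hVn⟩ := (Nat.dvd_prime_pow Nat.prime_two).1
    (hcard ▸ V.card_subgroup_dvd_card : Nat.card V ∣ 2 ^ k)
  have hnk : n < k := by
    rcases Nat.lt_or_ge n k with h | h
    · exact h
    · exfalso
      apply hU
      have h1 : n = k := le_antisymm hn h
      have h2 : V = ⊤ := by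
        apply Subgroup.eq_top_of_card_eq
        rw [hVn, hcard, h1]
      rw [← hVU, h2, Subgroup.comap_top]
  obtain ⟨K, hK, hVK⟩ := Sylow.exists_subgroup_card_pow_succ (G := G ⧸ N) (p := 2) (n := n)
    (by rw [hcard]; exact pow_dvd_pow 2 hnk) hVn
  have hUK : U ≤ K.comap π := by
    rw [← hVU]
    exact Subgroup.comap_mono hVK
  refine ⟨K.comap π, hUK, ?_⟩
  have h3 := Subgroup.relIndex_mul_index hUK
  have h4 : (K.comap π).index = K.index := Subgroup.index_comap_of_surjective K hπs
  have h5 : U.index = V.index := by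
    conv_lhs => rw [← hVU]
    exact Subgroup.index_comap_of_surjective V hπs
  have h6 := K.card_mul_index
  have h7 := V.card_mul_index
  rw [hK, hcard] at h6
  rw [hVn, hcard] at h7
  rw [h4, h5] at h3
  have h8 : 0 < K.index := by
    rcases Nat.eq_zero_or_pos K.index with h | h
    · rw [h, mul_zero] at h6
      exact absurd h6.symm (by positivity)
    · exact h
  have h9 : 2 ^ n * (2 * K.index) = 2 ^ n * V.index := by
    rw [h7, ← h6, pow_succ, mul_assoc]
  have h10 : 2 * K.index = V.index := Nat.eq_of_mul_eq_mul_left (by positivity) h9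
  rw [← h10] at h3
  exact Nat.eq_of_mul_eq_mul_right h8 h3

end Pool.Agent.ETT
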