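import Pool.Agent.ETT.Stmts

/-!
# VFI: square classes of a quadratic extension
-/

set_option autoImplicit false

namespace Pool.Agent.ETT

namespace VFI_

variable {Om : Type} [Field Om] {K L : Subfield Om} {t : Om}

theorem norm_ne (ht : t ∉ K) {x y : Om} (hx : x ∈ K) (hy : y ∈ K) (h : x + y * t ≠ 0) :
    x ^ 2 - y ^ 2 * t ^ 2 ≠ 0 := by
  intro h0
  have hy0 : y ≠ 0 := by
    rintro rfl
    apply h
    have h1 : x ^ 2 = 0 := by linear_combination h0
    rw [pow_eq_zero_iff two_ne_zero] at h1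
    rw [h1]
    ring
  have h1 : (x + y * t) * (x - y * t) = 0 := by linear_combination h0
  rcases mul_eq_zero.1 h1 with h2 | h2
  · exact h h2
  · apply ht
    have h3 : t = x / y := by
      rw [eq_div_iff hy0]
      linear_combination (-1 : Om) * h2
    rw [h3]
    exact K.div_mem hx hy

theorem root (h2 : (2 : Om) ≠ 0) (hL : ∀ z : Om, z ∈ L ↔ ∃ x ∈ K, ∃ y ∈ K, z = x + y * t)
    {p r e : Om} (hp : p ∈ K) (hr : r ∈ K) (he : e ∈ K) (hN : p ^ 2 - r ^ 2 * t ^ 2 = e ^ 2)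
    (hpe : p + e ≠ 0) : ∃ f ∈ K, ∃ g ∈ L, f ≠ 0 ∧ p + r * t = f * g ^ 2 := by
  have h2K : (2 : Om) ∈ K := by
    have := K.add_mem K.one_mem K.one_mem
    rwa [one_add_one_eq_two] at this
  refine ⟨2 * (p + e), K.mul_mem h2K (K.add_mem hp he),
    (p + e + r * t) / (2 * (p + e)), ?_, mul_ne_zero h2 hpe, ?_⟩
  · apply L.div_mem
    · exact (hL _).2 ⟨p + e, K.add_mem hp he, r, hr, rfl⟩
    · exact (hL _).2 ⟨2 * (p + e), K.mul_mem h2K (K.add_mem hp he), 0, K.zero_mem, by ring⟩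
  · field_simp
    linear_combination hN

end VFI_

open VFI_ in
open Classical in
theorem vfi_proof : Stmt_VFI := by
  intro Om _ K L t h2 ht htt hL hF
  obtain ⟨s, hsK, hs⟩ := hF
  have hKL : ∀ x ∈ K, x ∈ L := fun x hx => (hL x).2 ⟨x, hx, 0, K.zero_mem, by ring⟩
  obtain ⟨P, hP⟩ : ∃ P : Om → Om → Prop, P = fun b w => ∃ x ∈ K, ∃ y ∈ K, ∃ c ∈ K,
    w = x + y * t ∧ w ≠ 0 ∧ c ≠ 0 ∧ x ^ 2 - y ^ 2 * t ^ 2 = b * c ^ 2 := ⟨_, rfl⟩
  obtain ⟨w, hw⟩ : ∃ w : Om → Om, ∀ b, w b ∈ L ∧ ((∃ v, P b v) → P b (w b)) := by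
    have h : ∀ b, ∃ u, u ∈ L ∧ ((∃ v, P b v) → P b u) := by
      intro b
      by_cases h : ∃ v, P b v
      · obtain ⟨v, hv⟩ := h
        refine ⟨v, ?_, fun _ => hv⟩
        have h3 := hv
        rw [hP] at h3
        obtain ⟨x, hx, y, hy, c, -, h4, -⟩ := h3
        exact (hL _).2 ⟨x, hx, y, hy, h4⟩
      · exact ⟨0, L.zero_mem, fun h' => absurd h' h⟩
    exact ⟨fun b => (h b).choose, fun b => (h b).choose_spec⟩
  have key : ∀ b v v', b ∈ K → P b v → P b v' →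
      ∃ f ∈ K, ∃ g ∈ L, f ≠ 0 ∧ v * v' = f * g ^ 2 := by
    intro b v v' hb hv hv'
    rw [hP] at hv hv'
    obtain ⟨x, hx, y, hy, c, hc, rfl, hv0, hc0, hN⟩ := hv
    obtain ⟨x', hx', y', hy', c', hc', rfl, hv0', hc0', hN'⟩ := hv'
    have hNz := norm_ne ht hx hy hv0
    have hb0 : b ≠ 0 := by
      rintro rfl
      rw [zero_mul] at hN
      exact hNz hN
    have hp : x * x' + y * y' * t ^ 2 ∈ K :=
      K.add_mem (K.mul_mem hx hx') (K.mul_mem (K.mul_mem hy hy') htt)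
    have hr : x * y' + y * x' ∈ K := K.add_mem (K.mul_mem hx hy') (K.mul_mem hy hx')
    have he : b * c * c' ∈ K := K.mul_mem (K.mul_mem hb hc) hc'
    have hprod : (x + y * t) * (x' + y' * t) =
        (x * x' + y * y' * t ^ 2) + (x * y' + y * x') * t := by ring
    have hNN : (x * x' + y * y' * t ^ 2) ^ 2 - (x * y' + y * x') ^ 2 * t ^ 2 =
        (b * c * c') ^ 2 := by
      have : (x * x' + y * y' * t ^ 2) ^ 2 - (x * y' + y * x') ^ 2 * t ^ 2 =
          (x ^ 2 - y ^ 2 * t ^ 2) * (x' ^ 2 - y' ^ 2 * t ^ 2) := by ring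
      rw [this, hN, hN']
      ring
    rw [hprod]
    by_cases hpe : x * x' + y * y' * t ^ 2 + b * c * c' = 0
    · refine root h2 hL hp hr (K.neg_mem he) (by rw [hNN]; ring) ?_
      intro h0
      have h3 : 2 * (b * c * c') = 0 := by linear_combination hpe - h0
      rcases mul_eq_zero.1 h3 with h4 | h4
      · exact h2 h4
      · exact mul_ne_zero (mul_ne_zero hb0 hc0) hc0' h4
    · exact root h2 hL hp hr he hNN hpe
  refine ⟨(s ×ˢ s).image (fun p => p.1 * w p.2), ?_, ?_⟩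
  · intro z hz
    rw [Finset.mem_coe, Finset.mem_image] at hz
    obtain ⟨p, hp, rfl⟩ := hz
    rw [Finset.mem_product] at hp
    exact L.mul_mem (hKL _ (hsK hp.1)) (hw p.2).1
  · intro a ha ha0
    obtain ⟨x, hx, y, hy, rfl⟩ := (hL a).1 ha
    obtain ⟨b, hb, c, hc, hc0, hbc⟩ := hs (x ^ 2 - y ^ 2 * t ^ 2)
      (K.sub_mem (K.pow_mem hx 2) (K.mul_mem (K.pow_mem hy 2) htt)) (norm_ne ht hx hy ha0)
    have hbK : b ∈ K := hsK hb
    have hPa : P b (x + y * t) := by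
      rw [hP]
      exact ⟨x, hx, y, hy, c, hc, rfl, ha0, hc0, hbc⟩
    have hPw := (hw b).2 ⟨_, hPa⟩
    have hw0 : w b ≠ 0 := by
      rw [hP] at hPw
      obtain ⟨_, _, _, _, _, _, _, h4, _⟩ := hPw
      exact h4
    obtain ⟨f, hf, g, hg, hf0, hfg⟩ := key b _ _ hbK hPa hPw
    obtain ⟨b', hb', c', hc', hc0', hbc'⟩ := hs f hf hf0
    refine ⟨b' * w b, Finset.mem_image.2 ⟨(b', b), Finset.mem_product.2 ⟨hb', hb⟩, rfl⟩,
      c' * g / w b, L.div_mem (L.mul_mem (hKL _ hc') hg) (hw b).1, ?_, ?_⟩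
    · have hg0 : g ≠ 0 := by
        rintro rfl
        have : (x + y * t) * w b = 0 := by rw [hfg]; ring
        exact mul_ne_zero ha0 hw0 this
      exact div_ne_zero (mul_ne_zero hc0' hg0) hw0
    · field_simp
      rw [hbc'] at hfg
      linear_combination hfg

end Pool.Agent.ETT
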