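import Pool.Agent.ETT.Stmts

/-!
# ETT, module VFU: finitely many square classes in every `K_U` (MP_d26ff6_al)
-/

set_option autoImplicit false

namespace Pool.Agent.ETT

theorem vfu_proof (hADB : Stmt_ADB) (hIND : Stmt_IND) (hGFX : Stmt_GFX) (hKU2 : Stmt_KU2)
    (hKU3 : Stmt_KU3) (hVFI : Stmt_VFI) : Stmt_VFU := by
  intro F Om _ _ _ hS
  obtain ⟨_, _, hup, _, hcore, _⟩ := hADB (Om ≃ₐ[F] Om)
  obtain ⟨g1, _, _, _⟩ := hGFX F Om hS
  have h2 : (2 : Om) ≠ 0 := by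
    intro h
    apply hS.two
    apply (algebraMap F Om).injective
    rw [map_zero, map_ofNat]
    exact h
  refine (hIND (Om ≃ₐ[F] Om) (admT (Om ≃ₐ[F] Om)) hup ?_
    (fun U => FinSq Om (KU F Om U : Set Om))).1 ?_ ?_
  · intro U hU
    obtain ⟨N, _, h1, h2, h3⟩ := hcore U hU
    exact ⟨N, h1, h2, h3⟩
  · have e : (KU F Om ⊤ : Set Om) = Set.range (algebraMap F Om) := by
      ext x
      exact g1 x
    show FinSq Om (KU F Om ⊤ : Set Om)
    rw [e]
    exact hS.fin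
  · intro U hU W hW hWU hrel hP
    obtain ⟨t, ht, ht2, hWt⟩ := hKU2 F Om hS U hU W hW hWU hrel
    obtain ⟨_, _, hz, _⟩ := hKU3 F Om hS U hU W hW hWU hrel t ht ht2 hWt
    exact hVFI Om (KU F Om U).toSubfield (KU F Om W).toSubfield t h2 ht ht2 hz hP

end Pool.Agent.ETT
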