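import Pool.Agent.ETT.Stmts

/-! Closure properties of the admissible subgroups of a topological group. -/

set_option autoImplicit false

namespace Pool.Agent.ETT

namespace ADB_

theorem inf_index {G : Type} [Group G] (N M : Subgroup G) (hM : M.Normal) (a b : ℕ)
    (ha : N.index = 2 ^ a) (hb : M.index = 2 ^ b) : ∃ k : ℕ, (N ⊓ M).index = 2 ^ k := by
  have h1 : (N ⊓ M).relIndex N * N.index = (N ⊓ M).index :=
    Subgroup.relIndex_mul_index inf_le_left
  have h2 : (N ⊓ M).relIndex N = M.relIndex N := Subgroup.inf_relIndex_left N M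
  have h3 : M.relIndex N ∣ M.index := Subgroup.relIndex_dvd_index_of_normal M N
  rw [hb] at h3
  obtain ⟨c, -, hc⟩ := (Nat.dvd_prime_pow Nat.prime_two).1 h3
  refine ⟨c + a, ?_⟩
  rw [← h1, h2, hc, ha, pow_add]

end ADB_

theorem adb_proof : Stmt_ADB := by
  intro G _ _ _
  refine ⟨⟨⊤, le_rfl, inferInstance, ?_, 0, ?_⟩, ?_, ?_, ?_, ?_, ?_⟩
  · rw [Subgroup.coe_top]; exact isOpen_univ
  · rw [Subgroup.index_top]; rfl
  · rintro U ⟨N, hNU, hN, hNo, a, ha⟩ W ⟨M, hMW, hM, hMo, b, hb⟩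
    refine ⟨N ⊓ M, inf_le_inf hNU hMW, ?_, ?_, ADB_.inf_index N M hM a b ha hb⟩
    · have := hN
      have := hM
      infer_instance
    · rw [Subgroup.coe_inf]
      exact hNo.inter hMo
  · rintro W ⟨N, hNW, hN, hNo, a, ha⟩ U hWU
    exact ⟨N, hNW.trans hWU, hN, hNo, a, ha⟩
  · rintro U ⟨N, hNU, hN, hNo, a, ha⟩ g
    refine ⟨N, ?_, hN, hNo, a, ha⟩
    intro n hn
    refine ⟨g⁻¹ * n * g, hNU ?_, ?_⟩
    · have := hN.conj_mem n hn g⁻¹
      rwa [inv_inv] at this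
    · simp [MulAut.conj_apply, mul_assoc]
  · rintro U ⟨N, hNU, hN, hNo, a, ha⟩
    exact ⟨N, ⟨N, le_rfl, hN, hNo, a, ha⟩, hNU, hN, a, ha⟩
  · rintro U ⟨N, hNU, hN, hNo, a, ha⟩
    have ho : IsOpen (U : Set G) := Subgroup.isOpen_mono hNU hNo
    refine ⟨ho, Subgroup.isClosed_of_isOpen U ho, ?_⟩
    have : N.FiniteIndex := ⟨by rw [ha]; positivity⟩
    exact Subgroup.finiteIndex_of_le hNU

end Pool.Agent.ETT
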