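import Mathlib

/-!
# ETT: interface between the Galois side and the Iwasawa side (MP_d26ff6_al, field theorem)

The subgroups are the members of an abstract family `adm` (open subgroups of 2-power type of
`Gal(Om/F)`); the Iwasawa part (IWA) is a theorem on discrete `G`-modules `R` over `F_2` with
finite fixed spaces; it is applied to the explicit module of note 1588 (EXP), whose fixed spaces
have dimension `dim V_U - 1 + [G : U]`. No topology, no profinite modules.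
-/

set_option autoImplicit false

namespace Pool.Agent.ETT

open Module

/-- `chi : U → Z_2` is a cocycle with respect to the character `cyc` (a homomorphism if
`cyc = 1`). -/
def IsCoc {G : Type} [Group G] (cyc : G →* ℤ_[2]ˣ) (U : Subgroup G) (chi : G → ℤ_[2]) : Prop :=
  ∀ g ∈ U, ∀ h ∈ U, chi (g * h) = chi g + (cyc g : ℤ_[2]) * chi h

/-- The subgroup (as a set) of level `j` of a cocycle on `U`. -/
def lev {G : Type} [Group G] (U : Subgroup G) (chi : G → ℤ_[2]) (j : ℕ) : Set G :=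
  {g | g ∈ U ∧ (2 : ℤ_[2]) ^ j ∣ chi g}

/-- An admissible system of subgroups: in the application the open subgroups `U` of
`Gal(Fs/F)` which contain an open normal subgroup `N` with `G/N` a 2-group. -/
structure Sys (G : Type) [Group G] where
  adm : Set (Subgroup G)
  top_mem : ⊤ ∈ adm
  inf_mem : ∀ U ∈ adm, ∀ W ∈ adm, U ⊓ W ∈ adm
  up_mem : ∀ W ∈ adm, ∀ U : Subgroup G, W ≤ U → U ∈ adm
  conj_mem : ∀ U ∈ adm, ∀ g : G, U.map (MulAut.conj g).toMonoidHom ∈ adm
  core : ∀ U ∈ adm, ∃ N ∈ adm, N ≤ U ∧ N.Normal ∧ ∃ k : ℕ, N.index = 2 ^ k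
  /-- finitely many quadratic extensions -/
  fg : ∀ U ∈ adm, {W : Subgroup G | W ∈ adm ∧ W ≤ U ∧ W.relIndex U = 2}.Finite
  /-- the 2-adic cyclotomic character (`= 1` if all 2-power roots of unity are in `F`) -/
  cyc : G →* ℤ_[2]ˣ
  cyc4 : ∀ g, (4 : ℤ_[2]) ∣ (cyc g : ℤ_[2]) - 1
  cycadm : ∀ j : ℕ, ∃ W ∈ adm, (W : Set G) = {g | (2 : ℤ_[2]) ^ j ∣ (cyc g : ℤ_[2]) - 1}
  /-- Kummer theory: every character mod 2 lifts to `Z_2(1)` -/
  lift : ∀ U ∈ adm, ∀ W ∈ adm, W ≤ U → W.relIndex U = 2 →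
    ∃ chi : G → ℤ_[2], IsCoc cyc U chi ∧
      (∀ j : ℕ, ∃ W' ∈ adm, (W' : Set G) = lev U chi j) ∧ (W : Set G) = lev U chi 1

/-- The fixed vectors of a subgroup. -/
def fix {G R : Type} [Group G] [AddCommGroup R] [Module (ZMod 2) R]
    (rho : Representation (ZMod 2) G R) (U : Subgroup G) : Submodule (ZMod 2) R where
  carrier := {r | ∀ g ∈ U, rho g r = r}
  add_mem' := by
    intro a b ha hb g hg
    rw [map_add, ha g hg, hb g hg]
  zero_mem' := by
    intro g _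
    rw [map_zero]
  smul_mem' := by
    intro c x hx g hg
    rw [map_smul, hx g hg]

/-- `b_U = dim R^U`. -/
noncomputable def bb {G R : Type} [Group G] [AddCommGroup R] [Module (ZMod 2) R]
    (rho : Representation (ZMod 2) G R) (U : Subgroup G) : ℕ :=
  finrank (ZMod 2) (fix rho U)

/-- A smooth module with finite fixed spaces. -/
structure IsAdmMod {G R : Type} [Group G] [AddCommGroup R] [Module (ZMod 2) R]
    (S : Sys G) (rho : Representation (ZMod 2) G R) : Prop where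
  smooth : ∀ r : R, ∃ U ∈ S.adm, r ∈ fix rho U
  fin : ∀ U ∈ S.adm, FiniteDimensional (ZMod 2) (fix rho U)

/-- **Layer 1 (IWA, integrality and the generic tower), case `cyc = 1`.**
`beta` is the infimum of `b_U / [G:U]`; it is an integer and along the tower of some
`Z_2`-character `chi` of some `U` one has `b ≤ beta [G : U_j] + C`. -/
def Stmt_IWA : Prop :=
  ∀ (G R : Type) [Group G] [AddCommGroup R] [Module (ZMod 2) R]
    (S : Sys G) (rho : Representation (ZMod 2) G R),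
    S.cyc = 1 → IsAdmMod S rho → (∃ W ∈ S.adm, W ≠ ⊤) →
    ∃ beta : ℕ, (∀ U ∈ S.adm, beta * U.index ≤ bb rho U) ∧
      ∃ U ∈ S.adm, ∃ chi : G → ℤ_[2], IsCoc S.cyc U chi ∧ (∃ g ∈ U, ¬ (2 : ℤ_[2]) ∣ chi g) ∧
        ∃ C : ℕ, ∀ j : ℕ, ∃ W ∈ S.adm, (W : Set G) = lev U chi j ∧
          bb rho W ≤ beta * W.index + C

/-- The conclusion of IWA for one system. -/
def IWAfor {G : Type} [Group G] (S : Sys G) : Prop :=
  ∀ (R : Type) [AddCommGroup R] [Module (ZMod 2) R] (rho : Representation (ZMod 2) G R),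
    IsAdmMod S rho → (∃ W ∈ S.adm, W ≠ ⊤) →
    ∃ beta : ℕ, (∀ U ∈ S.adm, beta * U.index ≤ bb rho U) ∧
      ∃ U ∈ S.adm, ∃ chi : G → ℤ_[2], IsCoc S.cyc U chi ∧ (∃ g ∈ U, ¬ (2 : ℤ_[2]) ∣ chi g) ∧
        ∃ C : ℕ, ∀ j : ℕ, ∃ W ∈ S.adm, (W : Set G) = lev U chi j ∧
          bb rho W ≤ beta * W.index + C

/-- IWA without the hypothesis `cyc = 1` (field theorem without roots of unity). -/
def Stmt_IWG : Prop := ∀ (G : Type) [Group G] (S : Sys G), IWAfor S

/-- EXP (helper91, note 1588): the explicit module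
`R = {phi : G → F_2, phi 1 = 0, constant on the cosets of some member of adm}`,
`dim R^U = dim Hom(U, F_2) - 1 + [G : U]`. -/
def Stmt_EXP : Prop :=
  ∀ (G : Type) [Group G] (S : Sys G),
    ∃ (R : Type) (_ : AddCommGroup R) (_ : Module (ZMod 2) R) (rho : Representation (ZMod 2) G R),
      IsAdmMod S rho ∧ ∀ U ∈ S.adm, ∀ n : ℕ,
        Nat.card {W : Subgroup G // W ∈ S.adm ∧ W ≤ U ∧ W.relIndex U = 2} + 1 = 2 ^ n →
        bb rho U + 1 = n + U.index

/-- The quaternionic data over an admissible system: for every `U` the spaces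
`V_U = K*/K*²`, `B_U = I²K`, the symbol `q`, and the quadratic extension `ker x` of `x`. -/
structure QSys {G : Type} [Group G] (S : Sys G) where
  V : Subgroup G → Type
  B : Subgroup G → Type
  [vA : ∀ U, AddCommGroup (V U)]
  [vM : ∀ U, Module (ZMod 2) (V U)]
  [bA : ∀ U, AddCommGroup (B U)]
  [bM : ∀ U, Module (ZMod 2) (B U)]
  q : ∀ U, V U →ₗ[ZMod 2] V U →ₗ[ZMod 2] B U
  vF : ∀ U ∈ S.adm, Finite (V U)
  bF : ∀ U ∈ S.adm, Finite (B U)
  symm : ∀ U ∈ S.adm, ∀ x y, q U x y = q U y x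
  span : ∀ U ∈ S.adm, Submodule.span (ZMod 2) {b | ∃ x y, q U x y = b} = ⊤
  ker : ∀ U, V U → Subgroup G
  ker_spec : ∀ U ∈ S.adm, ∀ x : V U, x ≠ 0 →
    ker U x ∈ S.adm ∧ ker U x ≤ U ∧ (ker U x).relIndex U = 2
  ker_surj : ∀ U ∈ S.adm, ∀ W ∈ S.adm, W ≤ U → W.relIndex U = 2 → ∃ x : V U, x ≠ 0 ∧ ker U x = W
  ker_inj : ∀ U ∈ S.adm, ∀ x y : V U, x ≠ 0 → y ≠ 0 → ker U x = ker U y → x = y
  /-- square classes of a quadratic extension (Hilbert 90) -/
  triV : ∀ U ∈ S.adm, ∀ x : V U, x ≠ 0 →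
    finrank (ZMod 2) (V (ker U x)) + finrank (ZMod 2) (LinearMap.range (q U x)) + 1 =
      2 * finrank (ZMod 2) (V U)
  /-- the exact triangle -/
  triB : ∀ U ∈ S.adm, ∀ x : V U, x ≠ 0 →
    finrank (ZMod 2) (B (ker U x)) + finrank (ZMod 2) (LinearMap.range (q U x)) =
      2 * finrank (ZMod 2) (B U)

attribute [instance] QSys.vA QSys.vM QSys.bA QSys.bM

/-- **TOT**: there is a total element in some `K_U`. Uses EXP, BRK. -/
def Stmt_TOT : Prop :=
  ∀ (G : Type) [Group G] (S : Sys G), IWAfor S → ∀ Q : QSys S,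
    ∃ U ∈ S.adm, ∃ x : Q.V U, Function.Surjective (Q.q U x)

/-- bounded ranks => bounded dimension (helper75, 1580 (C)) -/
def Stmt_BRK : Prop :=
  ∀ (V B : Type) [AddCommGroup V] [Module (ZMod 2) V] [Finite V] [AddCommGroup B]
    [Module (ZMod 2) B] [Finite B] (q : V →ₗ[ZMod 2] V →ₗ[ZMod 2] B) (rr : ℕ),
    (∀ x y, q x y = q y x) → Submodule.span (ZMod 2) {b | ∃ x y, q x y = b} = ⊤ →
    (∀ x, finrank (ZMod 2) (LinearMap.range (q x)) ≤ rr) →
    finrank (ZMod 2) B ≤ 2 * rr ^ 2 + 2 * rr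

end Pool.Agent.ETT
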