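import Pool.Agent.ETT.Stmts

/-!
Squad ETT, module LVA: the stabilisers of successive square roots are admissible.
-/

set_option autoImplicit false

namespace Pool.Agent.ETT

theorem lva_proof (_hADB : Stmt_ADB) (_hAIX : Stmt_AIX) (hGFX : Stmt_GFX) (hKU1 : Stmt_KU1) :
    Stmt_LVA := by
  intro F Om _ _ _ hS U hU t ht h0 j
  obtain ⟨-, hfix, -, -⟩ := hGFX F Om hS
  induction j with
  | zero =>
    refine ⟨U, hU, ?_⟩
    ext g
    simp only [SetLike.mem_coe]
    exact ⟨fun hg => ⟨hg, h0 g hg⟩, fun hg => hg.1⟩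
  | succ j ih =>
    obtain ⟨W, hW, hWe⟩ := ih
    have hmem : ∀ g, g ∈ W ↔ g ∈ U ∧ g (t j) = t j := fun g => by
      have : g ∈ (W : Set (Om ≃ₐ[F] Om)) ↔ g ∈ {g | g ∈ U ∧ g (t j) = t j} := by rw [hWe]
      exact this
    have hsq : ∀ g : Om ≃ₐ[F] Om, g (t (j + 1)) = t (j + 1) → g (t j) = t j := by
      intro g hg
      rw [← ht j, map_pow, hg]
    by_cases hc : t (j + 1) ∈ KU F Om W
    · rw [hfix] at hc
      refine ⟨W, hW, ?_⟩
      ext g
      simp only [SetLike.mem_coe]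
      constructor
      · intro hg
        exact ⟨((hmem g).1 hg).1, hc g hg⟩
      · rintro ⟨hg, hg'⟩
        exact (hmem g).2 ⟨hg, hsq g hg'⟩
    · have h2 : t (j + 1) ^ 2 ∈ KU F Om W := by
        rw [ht j, hfix]
        intro g hg
        exact ((hmem g).1 hg).2
      obtain ⟨W', hW', -, -, hW'e⟩ := hKU1 F Om hS W hW (t (j + 1)) hc h2
      refine ⟨W', hW', ?_⟩
      rw [hW'e]
      ext g
      constructor
      · rintro ⟨hg, hg'⟩
        exact ⟨((hmem g).1 hg).1, hg'⟩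
      · rintro ⟨hg, hg'⟩
        exact ⟨(hmem g).2 ⟨hg, hsq g hg'⟩, hg'⟩

end Pool.Agent.ETT
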