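import Pool.Agent.ETT.Iface

/-!
# ETT: the tower / Galois side of the ETC field theorem (MP_d26ff6_al)
Statements of the modules.  Recipes: /team-store/MP_d26ff6_ETT.md
-/

set_option autoImplicit false

namespace Pool.Agent.ETT

open Module

/-! ## A. Group theory of the admissible subgroups -/

/-- The admissible subgroups of a topological group: those which contain an open normal subgroup
of index a power of 2. -/
def admT (G : Type) [Group G] [TopologicalSpace G] : Set (Subgroup G) :=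
  {U | ∃ N : Subgroup G, N ≤ U ∧ N.Normal ∧ IsOpen (N : Set G) ∧ ∃ k : ℕ, N.index = 2 ^ k}

/-- UP2: a subgroup of 2-power type has an overgroup of index 2. Uses nothing. -/
def Stmt_UP2 : Prop :=
  ∀ (G : Type) [Group G] (N U : Subgroup G) (k : ℕ), N.Normal → N ≤ U → N.index = 2 ^ k →
    U ≠ ⊤ → ∃ U' : Subgroup G, U ≤ U' ∧ U.relIndex U' = 2

/-- IND: induction along quadratic steps, downwards and upwards. Uses UP2. -/
def Stmt_IND : Prop :=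
  ∀ (G : Type) [Group G] (adm : Set (Subgroup G)),
    (∀ W ∈ adm, ∀ U : Subgroup G, W ≤ U → U ∈ adm) →
    (∀ U ∈ adm, ∃ N : Subgroup G, N ≤ U ∧ N.Normal ∧ ∃ k : ℕ, N.index = 2 ^ k) →
    ∀ P : Subgroup G → Prop,
      (P ⊤ → (∀ U ∈ adm, ∀ W ∈ adm, W ≤ U → W.relIndex U = 2 → P U → P W) →
        ∀ U ∈ adm, P U) ∧
      ((∀ U ∈ adm, ∀ W ∈ adm, W ≤ U → W.relIndex U = 2 → P W → P U) →
        ∀ U ∈ adm, P U → P ⊤)

/-! ## B. Topological groups -/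

/-- ADB: closure properties of `admT`. Uses nothing. -/
def Stmt_ADB : Prop :=
  ∀ (G : Type) [Group G] [TopologicalSpace G] [IsTopologicalGroup G],
    ⊤ ∈ admT G ∧ (∀ U ∈ admT G, ∀ W ∈ admT G, U ⊓ W ∈ admT G) ∧
    (∀ W ∈ admT G, ∀ U : Subgroup G, W ≤ U → U ∈ admT G) ∧
    (∀ U ∈ admT G, ∀ g : G, U.map (MulAut.conj g).toMonoidHom ∈ admT G) ∧
    (∀ U ∈ admT G, ∃ N ∈ admT G, N ≤ U ∧ N.Normal ∧ ∃ k : ℕ, N.index = 2 ^ k) ∧
    (∀ U ∈ admT G, IsOpen (U : Set G) ∧ IsClosed (U : Set G) ∧ U.FiniteIndex)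

/-- AIX: open subgroups of index 2 of admissible subgroups are admissible. Uses nothing. -/
def Stmt_AIX : Prop :=
  ∀ (G : Type) [Group G] [TopologicalSpace G] [IsTopologicalGroup G] (U W : Subgroup G),
    U ∈ admT G → W ≤ U → IsOpen (W : Set G) → W.relIndex U = 2 → W ∈ admT G

/-! ## C. Fields -/

section Fields
variable (F Om : Type) [Field F] [Field Om] [Algebra F Om]

/-- all 2-power roots of unity are in `F` -/
def HasMu (F : Type) [Field F] : Prop := ∀ j : ℕ, ∃ z : F, IsPrimitiveRoot z (2 ^ j)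

/-- the field `K_U` -/
noncomputable abbrev KU (U : Subgroup (Om ≃ₐ[F] Om)) : IntermediateField F Om :=
  IntermediateField.fixedField U

/-- finitely many square classes, for a subset `K` (a subfield) of a field -/
def FinSq (K : Set Om) : Prop :=
  ∃ s : Finset Om, (s : Set Om) ⊆ K ∧ ∀ a ∈ K, a ≠ 0 → ∃ b ∈ s, ∃ c ∈ K, c ≠ 0 ∧ a = b * c ^ 2

/-- `c` is the 2-adic cyclotomic character. -/
def IsCyc (c : (Om ≃ₐ[F] Om) →* ℤ_[2]ˣ) : Prop :=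
  ∀ (g : Om ≃ₐ[F] Om) (j : ℕ) (z : Om), z ^ (2 ^ j) = 1 →
    g z = z ^ (PadicInt.appr (c g : ℤ_[2]) j)

/-- The standing hypotheses: `Om/F` Galois, every element of `Om` is a square, `char ≠ 2`,
`-1` is a square in `F`, `F` has finitely many square classes. -/
structure Std : Prop where
  gal : IsGalois F Om
  two : (2 : F) ≠ 0
  sq : ∀ a : Om, ∃ b : Om, b ^ 2 = a
  im : ∃ i : F, i ^ 2 = -1
  fin : FinSq Om (Set.range (algebraMap F Om))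

end Fields

/-- `t` is a system of successive square roots. -/
def Rts {Om : Type} [Field Om] (t : ℕ → Om) : Prop := ∀ j, t (j + 1) ^ 2 = t j

/-- GFX: Galois theory for admissible subgroups. Uses ADB. -/
def Stmt_GFX : Prop :=
  ∀ (F Om : Type) [Field F] [Field Om] [Algebra F Om], Std F Om →
    (∀ x : Om, x ∈ KU F Om ⊤ ↔ x ∈ Set.range (algebraMap F Om)) ∧
    (∀ (U : Subgroup (Om ≃ₐ[F] Om)) (x : Om), x ∈ KU F Om U ↔ ∀ g ∈ U, g x = x) ∧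
    (∀ U ∈ admT (Om ≃ₐ[F] Om), ∀ g : Om ≃ₐ[F] Om, (∀ x ∈ KU F Om U, g x = x) → g ∈ U) ∧
    ∀ x : Om, IsOpen {g : Om ≃ₐ[F] Om | g x = x}

/-- KU1: the subgroup which belongs to a square root. Uses ADB, AIX, GFX. -/
def Stmt_KU1 : Prop :=
  ∀ (F Om : Type) [Field F] [Field Om] [Algebra F Om], Std F Om →
    ∀ U ∈ admT (Om ≃ₐ[F] Om), ∀ t : Om, t ∉ KU F Om U → t ^ 2 ∈ KU F Om U →
      ∃ W ∈ admT (Om ≃ₐ[F] Om), W ≤ U ∧ W.relIndex U = 2 ∧
        (W : Set (Om ≃ₐ[F] Om)) = {g | g ∈ U ∧ g t = t}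

/-- KU2: every admissible subgroup of index 2 belongs to a square root. Uses ADB, GFX. -/
def Stmt_KU2 : Prop :=
  ∀ (F Om : Type) [Field F] [Field Om] [Algebra F Om], Std F Om →
    ∀ U ∈ admT (Om ≃ₐ[F] Om), ∀ W ∈ admT (Om ≃ₐ[F] Om), W ≤ U → W.relIndex U = 2 →
      ∃ t : Om, t ∉ KU F Om U ∧ t ^ 2 ∈ KU F Om U ∧
        (W : Set (Om ≃ₐ[F] Om)) = {g | g ∈ U ∧ g t = t}

/-- KU3: the quadratic extension. Uses ADB, GFX. -/
def Stmt_KU3 : Prop :=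
  ∀ (F Om : Type) [Field F] [Field Om] [Algebra F Om], Std F Om →
    ∀ U ∈ admT (Om ≃ₐ[F] Om), ∀ W ∈ admT (Om ≃ₐ[F] Om), W ≤ U → W.relIndex U = 2 →
      ∀ t : Om, t ∉ KU F Om U → t ^ 2 ∈ KU F Om U →
      (W : Set (Om ≃ₐ[F] Om)) = {g | g ∈ U ∧ g t = t} →
        (∃ g ∈ U, g t = -t) ∧ (∀ g ∈ U, g t = t ∨ g t = -t) ∧
        (∀ z : Om, z ∈ KU F Om W ↔ ∃ x ∈ KU F Om U, ∃ y ∈ KU F Om U, z = x + y * t) ∧
        ∀ s : Om, s ≠ 0 → s ^ 2 ∈ KU F Om U →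
          ((W : Set (Om ≃ₐ[F] Om)) = {g | g ∈ U ∧ g s = s} ↔ ∃ c ∈ KU F Om U, c ≠ 0 ∧ s = c * t)

/-- VFI: square classes of a quadratic extension (Hilbert 90). Uses nothing. -/
def Stmt_VFI : Prop :=
  ∀ (Om : Type) [Field Om] (K L : Subfield Om) (t : Om), (2 : Om) ≠ 0 → t ∉ K → t ^ 2 ∈ K →
    (∀ z : Om, z ∈ L ↔ ∃ x ∈ K, ∃ y ∈ K, z = x + y * t) → FinSq Om (K : Set Om) →
    FinSq Om (L : Set Om)

/-- VFU: finitely many square classes in every `K_U`. Uses ADB, IND, GFX, KU2, KU3, VFI. -/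
def Stmt_VFU : Prop :=
  ∀ (F Om : Type) [Field F] [Field Om] [Algebra F Om], Std F Om →
    ∀ U ∈ admT (Om ≃ₐ[F] Om), FinSq Om (KU F Om U : Set Om)

/-- CYC: the cyclotomic character. Uses GFX. -/
def Stmt_CYC : Prop :=
  ∀ (F Om : Type) [Field F] [Field Om] [Algebra F Om], Std F Om →
    ∃ c : (Om ≃ₐ[F] Om) →* ℤ_[2]ˣ, IsCyc F Om c ∧ (∀ g, (4 : ℤ_[2]) ∣ (c g : ℤ_[2]) - 1) ∧
      (HasMu F → c = 1)

/-- LFT: the Kummer cocycle of a system of square roots. Uses nothing. -/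
def Stmt_LFT : Prop :=
  ∀ (F Om : Type) [Field F] [Field Om] [Algebra F Om] (c : (Om ≃ₐ[F] Om) →* ℤ_[2]ˣ),
    IsCyc F Om c → (2 : F) ≠ 0 → ∀ (U : Subgroup (Om ≃ₐ[F] Om)) (t z : ℕ → Om), Rts t → Rts z →
      z 0 = 1 → z 1 = -1 → t 0 ≠ 0 → (∀ g ∈ U, g (t 0) = t 0) →
      ∃ chi : (Om ≃ₐ[F] Om) → ℤ_[2], IsCoc c U chi ∧
        ∀ j, lev U chi j = {g | g ∈ U ∧ g (t j) = t j}

/-- LVA: the stabilisers of successive square roots are admissible. Uses ADB, AIX, GFX, KU1. -/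
def Stmt_LVA : Prop :=
  ∀ (F Om : Type) [Field F] [Field Om] [Algebra F Om], Std F Om →
    ∀ U ∈ admT (Om ≃ₐ[F] Om), ∀ t : ℕ → Om, Rts t → (∀ g ∈ U, g (t 0) = t 0) →
      ∀ j, ∃ W ∈ admT (Om ≃ₐ[F] Om), (W : Set (Om ≃ₐ[F] Om)) = {g | g ∈ U ∧ g (t j) = t j}

/-- SYS: the system of admissible subgroups of the Galois group.
Uses ADB, KU2, KU3, VFU, CYC, LFT, LVA. -/
def Stmt_SYS : Prop :=
  ∀ (F Om : Type) [Field F] [Field Om] [Algebra F Om], Std F Om →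
    ∃ S : Sys (Om ≃ₐ[F] Om), S.adm = admT (Om ≃ₐ[F] Om) ∧ (HasMu F → S.cyc = 1)

end Pool.Agent.ETT
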