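import Pool.Agent.ETT.Stmts
import Pool.Agent.EWG.Stmts

/-!
# ETT, part Z: the quaternionic data of the fields `K_U` (MP_d26ff6_al, field theorem)
Statements of the modules which join the Galois side (ETT), the Witt side (EWG) and the
descent (DSC).  Recipes: /team-store/MP_d26ff6_ETT.md
-/

set_option autoImplicit false

namespace Pool.Agent.ETT

open Module Pool.Agent.EWG

/-- `K` has a total element: `q(a, K) = I²K`. -/
def TotF (K : Type) [Field K] : Prop :=
  ∃ a : Kˣ, ∀ c ∈ (EWG.I K) ^ 2, ∃ b : Kˣ, pf a b = c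

/-- ISF: invariance under isomorphisms of fields. Uses MAP. -/
def Stmt_ISF : Prop :=
  ∀ (K L : Type) [Field K] [Field L], (K ≃+* L) →
    (Good K → Good L) ∧ (I3 K → I3 L) ∧ (TotF K → TotF L) ∧ (Finite (VV K) → Finite (VV L))

/-- FSV: finitely many square classes, two forms. Uses nothing. -/
def Stmt_FSV : Prop :=
  ∀ (F Om : Type) [Field F] [Field Om] [Algebra F Om],
    (Finite (VV F) → FinSq Om (Set.range (algebraMap F Om))) ∧
    ∀ K : IntermediateField F Om, FinSq Om (K : Set Om) → Finite (VV K)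

/-- STD: the standing hypotheses hold in the separable closure. Uses FSV. -/
def Stmt_STD : Prop :=
  ∀ (F : Type) [Field F], Good F → Finite (VV F) → Std F (SeparableClosure F)

/-- QDX: the quadratic extension `K_W / K_U`. Uses KU3. -/
def Stmt_QDX : Prop :=
  ∀ (F Om : Type) [Field F] [Field Om] [Algebra F Om], Std F Om →
    ∀ U ∈ admT (Om ≃ₐ[F] Om), ∀ W ∈ admT (Om ≃ₐ[F] Om), W ≤ U → W.relIndex U = 2 →
      ∀ t : Om, t ∉ KU F Om U → t ^ 2 ∈ KU F Om U →
      (W : Set (Om ≃ₐ[F] Om)) = {g | g ∈ U ∧ g t = t} →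
      ∃ (_ : Algebra (KU F Om U) (KU F Om W)) (E : QD (KU F Om U) (KU F Om W)),
        (((E.x : (KU F Om U)ˣ) : KU F Om U) : Om) = t ^ 2

/-- GDU: the fields `K_U` satisfy the hypotheses of the Witt side.
Uses ADB, IND, GFX, KU2, VFU, QDX, ISF, FSV, I3K (EWG), FIN (EWG). -/
def Stmt_GDU : Prop :=
  ∀ (F Om : Type) [Field F] [Field Om] [Algebra F Om], Std F Om → I3 F →
    ∀ U ∈ admT (Om ≃ₐ[F] Om), Good (KU F Om U) ∧ I3 (KU F Om U) ∧
      Finite (VV (KU F Om U)) ∧ Finite (BB (KU F Om U))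

/-- QSY: the quaternionic data over the system of the Galois group.
Uses ADB, GFX, KU1, KU2, KU3, QDX, GDU, QBL (EWG), ECN (EWG), QEX (EWG). -/
def Stmt_QSY : Prop :=
  ∀ (F Om : Type) [Field F] [Field Om] [Algebra F Om], Std F Om → I3 F →
    ∀ S : Sys (Om ≃ₐ[F] Om), S.adm = admT (Om ≃ₐ[F] Om) →
      ∃ Q : QSys S, ∀ U ∈ S.adm, ∀ x : Q.V U, Function.Surjective (Q.q U x) →
        TotF (KU F Om U)

/-- DWN: descent of a total element along `K_W / K_U`. Uses KU2, QDX, GDU, QEX (EWG), DSC. -/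
def Stmt_DWN : Prop :=
  ∀ (F Om : Type) [Field F] [Field Om] [Algebra F Om], Std F Om → I3 F →
    ∀ U ∈ admT (Om ≃ₐ[F] Om), ∀ W ∈ admT (Om ≃ₐ[F] Om), W ≤ U → W.relIndex U = 2 →
      TotF (KU F Om W) → TotF (KU F Om U)

/-- FTT: a total element in `F`. Uses STD, SYS, QSY, TOT, ADB, IND, DWN, GFX, ISF. -/
def Stmt_FTT : Prop :=
  ∀ (F : Type) [Field F], Good F → I3 F → Finite (VV F) →
    (∀ S : Sys (SeparableClosure F ≃ₐ[F] SeparableClosure F), (HasMu F → S.cyc = 1) →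
      IWAfor S) → TotF F

end Pool.Agent.ETT
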